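import Pool.Agent.Q57.ZI.Gal

/-!
# Classes generated by finitely many classes over Tate classes are Tate classes
-/

open CategoryTheory AlgebraicGeometry

universe u v w

namespace Pool.Agent.Q57.ZI

open Module
open Pool.Agent.H914 Pool.Agent.H914.VarClass Pool.Agent.H914.VarClass.Obj
  Pool.Agent.H914.WeilCohomology
open Pool.Agent.Y133.Half
open Pool.Agent.Q55 (Virtually GaloisAction IsTate tatePred push_act SubAction)

variable {k : Type u} [Field k] {𝒱 : VarClass k} {ops : CycleOps 𝒱}
  {W : WeilCohomology.{u, v} ops} {Γ : Type w} [Group Γ] (G : GaloisAction W Γ) {X P P' : 𝒱.Obj}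

/-- The classes which are finitely generated over Tate classes have finite-dimensional spaces of
values. -/
theorem gvalues_fin {Q R : ClassPred W}
    (hQ : ∀ (Z : 𝒱.Obj) (j : ℕ) (z : W.H Z), Q.P Z j z → IsTate G Z j z) {N : ℕ∞}
    (hG : GeneratedOver W Q.P R.P X N) : ∃ U : Submodule W.K (Germs Γ W.K),
      FiniteDimensional W.K U ∧
      ∀ n j x y, R.P (pw X n) j x → germ (gv G (pw X n) j x y) ∈ U := by
  obtain ⟨r, c, -, hc, hG⟩ := hG
  choose jc hjc using hc
  let U : Submodule W.K (Germs Γ W.K) := Submodule.span W.K {germ (1 : Γ → W.K)} ⊔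
    ⨆ i, LinearMap.range (gvals G (pw X (c i).1) (jc i) (c i).2)
  have hF : ∀ a : W.K, a • germ (1 : Γ → W.K) ∈ U := fun a =>
    Submodule.mem_sup_left (Submodule.smul_mem _ _ (Submodule.mem_span_singleton_self _))
  refine ⟨U, inferInstance, ?_⟩
  intro n j x y hx
  have hx' := hG n j x hx
  have hxg := R.gr hx
  have h0 : germ (0 : Γ → W.K) = 0 := map_zero _
  have key : ∀ x ∈ genOver W Q.P X c n,
      germ (gv G (pw X n) j (H914.proj (W.isInternal (pw X n)) (2 * j) x) y) ∈ U := by
    intro x hx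
    induction hx using Submodule.span_induction with
    | mem x hx =>
      rcases hx with ⟨l, hl⟩ | hx
      · by_cases hlj : l = j
        · subst hlj
          rw [proj_same _ (Q.gr hl), gv_tate G (hQ _ _ _ hl)]
          exact hF _
        · rw [proj_ne _ (Q.gr hl) (by omega), gv_zero_left, h0]
          exact Submodule.zero_mem _
      · obtain ⟨i, hx⟩ := Set.mem_iUnion.1 hx
        obtain ⟨l, z, hz, rfl⟩ := hx
        have e2 := (W.mul_mem (Q.gr hz) (W.map_mem (fst (pw X (c i).1) (pw X n))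
          (R.gr (hjc i))))
        have e3 := W.push_mem (snd (pw X (c i).1) (pw X n)) e2
        change germ (gv G (pw X n) j (H914.proj (W.isInternal (pw X n)) (2 * j)
          (W.push (snd (pw X (c i).1) (pw X n))
              (z * W.map (fst (pw X (c i).1) (pw X n)) (c i).2))) y) ∈ U
        by_cases hd : j + (pw X (c i).1).dim = l + jc i
        · have e4 : ((2 * l + 2 * jc i : ℕ) : ℤ) + 2 * (((pw X n).dim : ℤ) -
              ((pw X (c i).1).prod (pw X n)).dim) = ((2 * j : ℕ) : ℤ) := by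
            rw [dim_prod]; push_cast; omega
          rw [e4, grZ_natCast] at e3
          rw [proj_same _ e3, gv_corr G hd (hQ _ _ _ hz) (R.gr (hjc i)) y]
          exact Submodule.mem_sup_right (Submodule.mem_iSup_of_mem i ⟨_, rfl⟩)
        · by_cases hd2 : (pw X (c i).1).dim ≤ l + jc i
          · have e4 : ((2 * l + 2 * jc i : ℕ) : ℤ) + 2 * (((pw X n).dim : ℤ) -
                ((pw X (c i).1).prod (pw X n)).dim) =
                ((2 * (l + jc i - (pw X (c i).1).dim) : ℕ) : ℤ) := by
              rw [dim_prod]; push_cast; omega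
            rw [e4, grZ_natCast] at e3
            rw [proj_ne _ e3 (by omega), gv_zero_left, h0]
            exact Submodule.zero_mem _
          · rw [grZ_of_neg (by rw [dim_prod]; push_cast; omega), Submodule.mem_bot] at e3
            rw [e3, map_zero, gv_zero_left, h0]
            exact Submodule.zero_mem _
    | zero => rw [map_zero, gv_zero_left, h0]; exact Submodule.zero_mem _
    | add a b _ _ ha hb =>
      rw [map_add, gv_add_left, germ_add]
      exact Submodule.add_mem _ ha hb
    | smul s a _ ha =>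
      rw [map_smul, gv_smul_left, germ_smul]
      exact Submodule.smul_mem _ _ ha
  have h2 := key x hx'
  rwa [proj_same _ hxg] at h2

/-- The powers of the values of the pairing are values of the pairing. -/
lemma exists_gpow {R : ClassPred W} {m j₀ : ℕ} {x₀ : W.H (pw X m)} (hx₀ : R.P (pw X m) j₀ x₀)
    (y₀ : W.H (pw X m)) (r : ℕ) :
    ∃ (n j : ℕ) (x : W.H (pw X n)) (y : W.H (pw X n)), R.P (pw X n) j x ∧
      germ (gv G (pw X n) j x y) = germ (gv G (pw X m) j₀ x₀ y₀) ^ (r + 1) := by
  induction r with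
  | zero => exact ⟨m, j₀, x₀, y₀, hx₀, by rw [zero_add, pow_one]⟩
  | succ r ih =>
    obtain ⟨n, j, x, y, hx, hxy⟩ := ih
    have hd : ((pw X n).prod (pw X m)).dim = (pw X (n + m + 1)).dim := by
      rw [dim_prod, dim_pw, dim_pw, dim_pw]
      ring
    refine ⟨n + m + 1, j + j₀, W.push (pwAdd X n m).hom
      (W.map (fst _ _) x * W.map (snd _ _) x₀), W.map (pwAdd X n m).inv
        (W.map (fst _ _) y * W.map (snd _ _) y₀), ?_, ?_⟩
    · exact R.push _ (by rw [hd]) (R.mul (R.map _ hx) (R.map _ hx₀))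
    · rw [gv_push G _ hd, ← W.map_comp, Iso.hom_inv_id, W.map_id, gv_prod G (R.gr hx₀), hxy,
        pow_succ _ (r + 1)]

/-- A class is a Tate class if its pairings with its conjugates take finitely many values. -/
lemma tate_of_finite {j : ℕ} {x : W.H P} (hx : x ∈ W.gr P (2 * j))
    (h : ∀ y : W.H P, ∃ s : Finset W.K, Virtually fun g => gv G P j x y g ∈ s) :
    IsTate G P j x := by
  classical
  refine ⟨hx, ?_⟩
  let b := Module.finBasis W.K (W.H P)
  choose s hs using fun i => h (b i)
  obtain ⟨Δ, hΔ, hv⟩ := Virtually.and (virt_dom G P) (Virtually.all hs)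
  have hdom : ∀ g ∈ Δ, g ∈ (G.ρ P).dom := fun g hg => (hv g hg).1
  have act_one : (G.ρ P).act 1 = 1 := by
    have h1 := (G.ρ P).act_mul 1 (Subgroup.one_mem _) 1 (Subgroup.one_mem _)
    rw [mul_one] at h1
    exact (mul_eq_left.1 h1.symm)
  have hχ : ∀ (g : Γ), (G.χ g : W.K) ^ j ≠ 0 := fun g => pow_ne_zero _ (G.χ g).ne_zero
  -- the stabiliser
  let S : Subgroup Δ :=
    { carrier := {g | (G.ρ P).act g.1 x = (G.χ g.1 : W.K) ^ j • x}
      mul_mem' := by
        intro g g' hg hg'
        change (G.ρ P).act (g.1 * g'.1) x = (G.χ (g.1 * g'.1) : W.K) ^ j • x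
        rw [(G.ρ P).act_mul _ (hdom _ g.2) _ (hdom _ g'.2), AlgEquiv.mul_apply,
          show (G.ρ P).act g'.1 x = _ from hg', map_smul, show (G.ρ P).act g.1 x = _ from hg,
          smul_smul, map_mul, Units.val_mul, mul_pow, mul_comm]
      one_mem' := by
        change (G.ρ P).act 1 x = (G.χ 1 : W.K) ^ j • x
        rw [act_one, map_one, Units.val_one, one_pow, one_smul, AlgEquiv.one_apply]
      inv_mem' := by
        intro g hg
        change (G.ρ P).act g.1⁻¹ x = (G.χ g.1⁻¹ : W.K) ^ j • x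
        have h1 := (G.ρ P).act_mul g.1⁻¹ (Subgroup.inv_mem _ (hdom _ g.2)) g.1 (hdom _ g.2)
        rw [inv_mul_cancel, act_one] at h1
        have h2 := congrArg (fun e => e x) h1
        simp only [AlgEquiv.one_apply, AlgEquiv.mul_apply] at h2
        rw [show (G.ρ P).act g.1 x = _ from hg, map_smul] at h2
        rw [map_inv, Units.val_inv_eq_inv_val, inv_pow]
        conv_rhs => rw [h2]
        rw [smul_smul, inv_mul_cancel₀ (hχ _), one_smul] }
  have hS : S.FiniteIndex := by
    refine finiteIndex_of_fun S (T := ∀ i, s i)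
      (fun g => fun i => ⟨gv G P j x (b i) g.1, (hv g.1 g.2).2 i⟩) ?_
    intro g g' hgg
    have h1 : ∀ i, gv G P j x (b i) g.1 = gv G P j x (b i) g'.1 := fun i =>
      congrArg Subtype.val (congrFun hgg i)
    have h2 : ((G.χ g.1 : W.K) ^ j)⁻¹ • (G.ρ P).act g.1 x =
        ((G.χ g'.1 : W.K) ^ j)⁻¹ • (G.ρ P).act g'.1 x := by
      apply W.tr_ext
      intro y
      have h3 : ∀ (y : W.H P) (g : Γ), W.tr P ((((G.χ g : W.K) ^ j)⁻¹ • (G.ρ P).act g x) * y) =
          gv G P j x y g := by
        intro y g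
        rw [gv, smul_mul_assoc, map_smul, smul_eq_mul]
      rw [h3, h3, ← b.sum_repr y]
      generalize b.repr y = e
      have h4 : ∀ (t : Finset (Fin (Module.finrank W.K (W.H P)))) (g : Γ),
          gv G P j x (∑ i ∈ t, e i • b i) g = ∑ i ∈ t, e i * gv G P j x (b i) g := by
        intro t g
        rw [← h3, Finset.mul_sum, map_sum]
        refine Finset.sum_congr rfl fun i _ => ?_
        rw [mul_smul_comm, map_smul, h3, smul_eq_mul]
      rw [h4, h4]
      exact Finset.sum_congr rfl fun i _ => by rw [h1 i]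
    change (G.ρ P).act (g.1⁻¹ * g'.1) x = (G.χ (g.1⁻¹ * g'.1) : W.K) ^ j • x
    have h5 : (G.ρ P).act g'.1 x =
        ((G.χ g'.1 : W.K) ^ j * ((G.χ g.1 : W.K) ^ j)⁻¹) • (G.ρ P).act g.1 x := by
      have h6 := congrArg (fun v => (G.χ g'.1 : W.K) ^ j • v) h2
      simp only [smul_smul] at h6
      rw [mul_inv_cancel₀ (hχ _), one_smul] at h6
      exact h6.symm
    have h7 := (G.ρ P).act_mul g.1⁻¹ (Subgroup.inv_mem _ (hdom _ g.2)) g.1 (hdom _ g.2)
    rw [inv_mul_cancel, act_one] at h7
    have h8 := congrArg (fun e => e x) h7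
    simp only [AlgEquiv.one_apply, AlgEquiv.mul_apply] at h8
    rw [(G.ρ P).act_mul _ (Subgroup.inv_mem _ (hdom _ g.2)) _ (hdom _ g'.2), AlgEquiv.mul_apply,
      h5, map_smul, ← h8, map_mul, map_inv, Units.val_mul, Units.val_inv_eq_inv_val, mul_pow,
      inv_pow, mul_comm]
  refine ⟨S.map Δ.subtype, ⟨?_⟩, ?_⟩
  · rw [Subgroup.index_map_subtype]
    exact mul_ne_zero hS.index_ne_zero hΔ.index_ne_zero
  · rintro _ ⟨g, hg, rfl⟩ _
    exact hg

/-- **Classes which are finitely generated over Tate classes are Tate classes.** -/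
theorem tate_of_generated {Q R : ClassPred W}
    (hQ : ∀ (Z : 𝒱.Obj) (j : ℕ) (z : W.H Z), Q.P Z j z → IsTate G Z j z) {N : ℕ∞}
    (hG : GeneratedOver W Q.P R.P X N) {n j : ℕ} {x : W.H (pw X n)} (hx : R.P (pw X n) j x) :
    IsTate G (pw X n) j x := by
  obtain ⟨U, hU, hV⟩ := gvalues_fin G hQ hG
  refine tate_of_finite G (R.gr hx) fun y => finite_values (isIntegral_of_pow' (U := U) ?_)
  intro r
  obtain ⟨n', j', x', y', hx', h⟩ := exists_gpow G (R := R) hx y r
  rw [← h]
  exact hV n' j' x' y' hx'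

end Pool.Agent.Q57.ZI
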