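import Pool.Agent.Q50.MO.MNum
import Pool.Agent.Y133.Half.PairPred

/-!
# Classes generated by finitely many classes over Hodge classes
-/

open CategoryTheory AlgebraicGeometry TensorProduct

universe u

namespace Pool.Agent.Q57.ZI

open Module
open Pool.Agent.H914 Pool.Agent.H914.VarClass Pool.Agent.H914.VarClass.Obj
  Pool.Agent.H914.WeilCohomology
open Pool.Agent.Y133.Half
open Pool.Agent.Y121.AH
open Pool.Agent.Q50.BL

lemma xp_eq_zero {k : Type u} [Field k] {𝒱 : VarClass k} {ops : CycleOps 𝒱}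
    {W : WeilCohomology.{u, 0} ops} {P P' : 𝒱.Obj} {a : W.H P} {b : W.H P'}
    (h : W.map (fst P P') a * W.map (snd P P') b = 0) (ha : a ≠ 0) : b = 0 := by
  have h1 : kunnethMap (W.map (fst P P')) (W.map (snd P P')) (a ⊗ₜ[W.K] b) = 0 := h
  have h2 : (a ⊗ₜ[W.K] b : W.H P ⊗[W.K] W.H P') = 0 :=
    (W.kunneth P P').1 (h1.trans (map_zero _).symm)
  obtain ⟨f, hf⟩ : ∃ f : Module.Dual W.K (W.H P), f a ≠ 0 := by
    by_contra hc
    push Not at hc
    exact ha ((Module.forall_dual_apply_eq_zero_iff W.K a).1 hc)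
  have h3 := congrArg ((TensorProduct.lid W.K (W.H P')).toLinearMap ∘ₗ
    LinearMap.rTensor (W.H P') f) h2
  have h4 : f a • b = 0 := by simpa using h3
  exact (smul_eq_zero.1 h4).resolve_left hf

variable {k : Type u} [Field k] {𝒱 : VarClass k} {ops : CycleOps 𝒱} {T : HodgeTheory ops}
  {X Y Z P P' : 𝒱.Obj}

variable (T) in
/-- The projection to the classes of type `(p, q)` with `p - q = w`. -/
noncomputable def wt (X : 𝒱.Obj) (w : ℤ) : Module.End ℂ (CH T X) :=
  dia (pq_internal X) fun r => if r.1 - r.2 = w then 1 else 0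

lemma wt_pq {p q w : ℤ} {x : CH T X} (hx : x ∈ pqC T X p q) :
    wt T X w x = if p - q = w then x else 0 := by
  rw [wt, dia_apply (pq_internal X) _ (i := (p, q)) hx]
  dsimp only
  split_ifs
  · rw [one_smul]
  · rw [zero_smul]

lemma wt_wt {v w : ℤ} (h : v ≠ w) (x : CH T X) : wt T X w (wt T X v x) = 0 := by
  refine ch_ind (p := fun x => wt T X w (wt T X v x) = 0) ?_ ?_ ?_ x
  · intro _ a b _ x hx
    rw [wt_pq hx]
    split_ifs with h1
    · rw [wt_pq hx, if_neg (fun h2 => h (h1.symm.trans h2))]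
    · rw [map_zero]
  · intro a b ha hb; rw [map_add, map_add, ha, hb, add_zero]
  · rw [map_zero, map_zero]

lemma hop_wt (w : ℤ) (x : CH T X) : hop T X (wt T X w x) = (w : ℂ) • wt T X w x := by
  refine ch_ind (p := fun x => hop T X (wt T X w x) = (w : ℂ) • wt T X w x) ?_ ?_ ?_ x
  · intro _ a b _ x hx
    rw [wt_pq hx]
    split_ifs with h1
    · rw [hop_pq hx, h1]
    · rw [map_zero, smul_zero]
  · intro a b ha hb; rw [map_add, map_add, ha, hb, smul_add]
  · rw [map_zero, map_zero, smul_zero]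

/-- Eigenvectors of the Hodge operator. -/
lemma wt_eig {a : ℤ} {x : CH T X} (h : hop T X x = (a : ℂ) • x) (w : ℤ) :
    wt T X w x = if a = w then x else 0 := by
  set N : Module.End ℂ (CH T X) := dia (pq_internal X) fun r =>
    if r.1 - r.2 = a then 0 else (((r.1 - r.2 - a : ℤ) : ℂ))⁻¹ with hN
  have h3 : ∀ x : CH T X, N (hop T X x - (a : ℂ) • x) + wt T X a x = x := by
    intro x
    refine ch_ind (p := fun x : CH T X => N (hop T X x - (a : ℂ) • x) + wt T X a x = x) ?_ ?_ ?_ x
    · intro _ p q _ x hx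
      rw [hop_pq hx, ← sub_smul, map_smul, hN, wt_pq hx,
        dia_apply (pq_internal X) _ (i := (p, q)) hx]
      by_cases hab : p - q = a
      · simp [hab]
      · simp only [if_neg hab, add_zero]
        rw [smul_smul]
        have h4 : ((p - q : ℤ) : ℂ) - (a : ℂ) = ((p - q - a : ℤ) : ℂ) := by push_cast; ring
        rw [h4, mul_inv_cancel₀, one_smul]
        rw [Ne, Int.cast_eq_zero]; omega
    · intro x y hx hy
      calc N (hop T X (x + y) - (a : ℂ) • (x + y)) + wt T X a (x + y) =
            (N (hop T X x - (a : ℂ) • x) + wt T X a x) +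
              (N (hop T X y - (a : ℂ) • y) + wt T X a y) := by
              rw [map_add, map_add, smul_add, add_sub_add_comm, map_add]; abel
        _ = x + y := by rw [hx, hy]
    · rw [map_zero, smul_zero, sub_zero, map_zero, map_zero, add_zero]
  have h5 := h3 x
  rw [h, sub_self, map_zero, zero_add] at h5
  by_cases haw : a = w
  · subst haw
    rw [if_pos rfl, h5]
  · rw [if_neg haw, ← h5, wt_wt haw]

lemma wt_lev {l : ℕ} (h : Lev T X l) {w : ℤ} (hw : (l : ℤ) < |w|) (x : CH T X) :
    wt T X w x = 0 := by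
  refine ch_ind (p := fun x => wt T X w x = 0) ?_ ?_ ?_ x
  · intro _ a b _ x hx
    rw [wt_pq hx]
    split_ifs with h1
    · have h2 := h a b (by rw [h1]; exact hw)
      rw [h2, Submodule.mem_bot] at hx
      exact hx
    · rfl
  · intro a b ha hb; rw [map_add, ha, hb, add_zero]
  · rw [map_zero]

/-- An element is the sum of its components. -/
lemma wt_sum {l : ℕ} (h : Lev T X l) (x : CH T X) :
    x = ∑ w ∈ Finset.Icc (-(l : ℤ)) l, wt T X w x := by
  refine ch_ind (p := fun x => x = ∑ w ∈ Finset.Icc (-(l : ℤ)) l, wt T X w x) ?_ ?_ ?_ x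
  · intro _ a b _ x hx
    by_cases hab : (l : ℤ) < |a - b|
    · rw [h a b hab, Submodule.mem_bot] at hx
      rw [hx, Finset.sum_eq_zero fun w _ => map_zero _]
    · rw [Finset.sum_congr rfl fun w _ => wt_pq (w := w) hx, Finset.sum_ite_eq, if_pos]
      rw [Finset.mem_Icc]
      rw [not_lt, abs_le] at hab
      exact hab
  · intro a b ha hb
    simp only [map_add]
    rw [Finset.sum_add_distrib, ← ha, ← hb]
  · simp

/-- The components of the images under maps which commute with the Hodge operators. -/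
lemma wt_comm {f : CH T X →ₗ[ℂ] CH T Y} (hf : ∀ x, hop T Y (f x) = f (hop T X x)) (w : ℤ)
    (x : CH T X) : wt T Y w (f x) = f (wt T X w x) := by
  refine ch_ind (p := fun x => wt T Y w (f x) = f (wt T X w x)) ?_ ?_ ?_ x
  · intro _ a b _ x hx
    rw [wt_pq hx, wt_eig (a := a - b) (by rw [hf, hop_pq hx, map_smul])]
    split_ifs
    · rfl
    · rw [map_zero]
  · intro a b ha hb; rw [map_add, map_add, ha, hb, map_add, map_add]
  · rw [map_zero, map_zero, map_zero, map_zero]

/-- The components of an external product of an element with itself. -/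
lemma wt_square {x : CH T P} {w : ℤ} (h : ∀ v : ℤ, |w| < |v| → wt T P v x = 0) :
    wt T (P.prod P) (2 * w) (mp T (fst P P) x * mp T (snd P P) x) =
      mp T (fst P P) (wt T P w x) * mp T (snd P P) (wt T P w x) := by
  obtain ⟨l, hl⟩ := exists_lev T P
  have key : ∀ v v' : ℤ, wt T (P.prod P) (2 * w)
      (mp T (fst P P) (wt T P v x) * mp T (snd P P) (wt T P v' x)) =
      if v = w ∧ v' = w then mp T (fst P P) (wt T P w x) * mp T (snd P P) (wt T P w x)
        else 0 := by
    intro v v'
    rw [wt_eig (a := v + v')]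
    · by_cases h1 : v = w ∧ v' = w
      · rw [if_pos h1, if_pos (by omega), h1.1, h1.2]
      · rw [if_neg h1]
        split_ifs with h2
        · -- one of the two is larger
          by_cases h3 : |w| < |v|
          · rw [h v h3, map_zero, zero_mul]
          · by_cases h4 : |w| < |v'|
            · rw [h v' h4, map_zero, mul_zero]
            · exfalso
              apply h1
              rw [not_lt] at h3 h4
              rcases abs_cases w with ⟨h5, _⟩ | ⟨h5, _⟩ <;>
                rcases abs_cases v with ⟨h6, _⟩ | ⟨h6, _⟩ <;>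
                rcases abs_cases v' with ⟨h7, _⟩ | ⟨h7, _⟩ <;>
                constructor <;> omega
        · rfl
    · rw [hop_mul, hop_mp, hop_mp, hop_wt, hop_wt, map_smul, map_smul, smul_mul_assoc,
        mul_smul_comm, ← add_smul]
      push_cast
      rfl
  have h1 : mp T (fst P P) x * mp T (snd P P) x =
      ∑ v ∈ Finset.Icc (-(l : ℤ)) l, ∑ v' ∈ Finset.Icc (-(l : ℤ)) l,
        mp T (fst P P) (wt T P v x) * mp T (snd P P) (wt T P v' x) := by
    conv_lhs => rw [wt_sum hl x]
    rw [map_sum, map_sum, Finset.sum_mul_sum]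
  rw [h1, map_sum]
  simp only [map_sum, key]
  by_cases hw : w ∈ Finset.Icc (-(l : ℤ)) l
  · rw [Finset.sum_eq_single w]
    · rw [Finset.sum_eq_single w]
      · rw [if_pos ⟨rfl, rfl⟩]
      · intro v' _ hv'; rw [if_neg fun h => hv' h.2]
      · intro h'; exact absurd hw h'
    · intro v _ hv
      refine Finset.sum_eq_zero fun v' _ => ?_
      rw [if_neg fun h => hv h.1]
    · intro h'; exact absurd hw h'
  · have h2 : wt T P w x = 0 := by
      refine wt_lev hl ?_ x
      rw [Finset.mem_Icc] at hw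
      by_contra h3
      rw [not_lt, abs_le] at h3
      exact hw h3
    rw [h2, map_zero, zero_mul]
    refine Finset.sum_eq_zero fun v _ => Finset.sum_eq_zero fun v' _ => ?_
    rw [ite_self]

lemma mp_xp_eq_zero {a : CH T P} (h : mp T (fst P P) a * mp T (snd P P) a = 0) : a = 0 := by
  by_contra ha
  have h1 : (CW T).map (fst P P) a * (CW T).map (snd P P) a = 0 := by
    rw [show (CW T).map (fst P P) a = mp T (fst P P) a from
      Pool.Agent.Y121.AHS.mapBase_eq (L := ℂ) (T.W.map (fst P P)) a,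
      show (CW T).map (snd P P) a = mp T (snd P P) a from
      Pool.Agent.Y121.AHS.mapBase_eq (L := ℂ) (T.W.map (snd P P)) a]
    exact h
  exact ha (xp_eq_zero (W := CW T) h1 ha)

/-- The components of classes which are finitely generated over Hodge classes are bounded. -/
theorem wt_bounded {Q R : ClassPred T.W}
    (hQ : ∀ (Z : 𝒱.Obj) (j : ℕ) (z : T.W.H Z), Q.P Z j z → IsHodge T Z j z) {N : ℕ∞}
    (hG : GeneratedOver T.W Q.P R.P X N) : ∃ L : ℕ, ∀ n, ∀ x ∈ R.sys.C (pw X n), ∀ w : ℤ,
      (L : ℤ) < |w| → wt T (pw X n) w (1 ⊗ₜ[T.W.K] x) = 0 := by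
  obtain ⟨r, c, -, -, hG⟩ := hG
  choose l hl using fun i => exists_lev T (pw X (c i).1)
  refine ⟨∑ i, l i, fun n x hx w hw => ?_⟩
  have hmem : ∀ j (z : T.W.H (pw X n)), R.P (pw X n) j z →
      z ∈ genOver T.W Q.P X c n := hG n
  have key : ∀ x ∈ genOver T.W Q.P X c n, wt T (pw X n) w (1 ⊗ₜ[T.W.K] x) = 0 := by
    intro x hx
    induction hx using Submodule.span_induction with
    | mem x hx =>
      rcases hx with ⟨j, hj⟩ | hx
      · have h1 : hop T (pw X n) (1 ⊗ₜ[T.W.K] x) = 0 :=
          hop_hodge (ClassPred.sp_of (Q := hodgePred T) (hQ _ _ _ hj))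
        rw [wt_eig (a := 0) (by rw [h1, Int.cast_zero, zero_smul]), if_neg]
        rintro rfl
        rw [abs_zero] at hw
        exact absurd hw (by push_cast; exact not_lt.2 (Finset.sum_nonneg fun _ _ => by positivity))
      · obtain ⟨i, hx⟩ := Set.mem_iUnion.1 hx
        obtain ⟨m, z, hz, rfl⟩ := hx
        have h1 : T.W.corr z ∈ (hodgeSys T).Op (pw X (c i).1) (pw X n) :=
          Sys.Op.corr (ClassPred.sp_of (Q := hodgePred T) (hQ _ _ _ hz))
        have h2 := mor_of_op h1
        have h3 := wt_comm (T := T) (f := (T.W.corr z).baseChange ℂ) (fun x => (h2 x).symm) w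
          (1 ⊗ₜ[T.W.K] (c i).2)
        rw [LinearMap.baseChange_tmul] at h3
        have h4 : (l i : ℤ) < |w| := by
          refine lt_of_le_of_lt ?_ hw
          exact_mod_cast Finset.single_le_sum (f := l) (fun _ _ => Nat.zero_le _)
            (Finset.mem_univ i)
        rw [wt_lev (hl i) h4, map_zero] at h3
        exact h3
    | zero => rw [tmul_zero, map_zero]
    | add a b _ _ ha hb => rw [tmul_add, map_add, ha, hb, add_zero]
    | smul s a _ ha =>
      have h1 : (1 ⊗ₜ[T.W.K] (s • a) : CH T (pw X n)) = (algebraMap T.W.K ℂ s) • (1 ⊗ₜ[T.W.K] a) := by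
        rw [← TensorProduct.smul_tmul, TensorProduct.smul_tmul', Algebra.smul_def, smul_eq_mul]
      rw [h1, map_smul, ha, smul_zero]
  refine key x ?_
  refine ClassPred.sp_ind (Q := R) (q := fun x => x ∈ genOver T.W Q.P X c n) ?_ ?_ ?_ hx
  · intro j x hx; exact hmem j x hx
  · exact Submodule.zero_mem _
  · intro a b ha hb; exact Submodule.add_mem _ ha hb

/-- **Classes which are finitely generated over Hodge classes are Hodge classes.** -/
theorem hodge_of_generated {Q R : ClassPred T.W}
    (hQ : ∀ (Z : 𝒱.Obj) (j : ℕ) (z : T.W.H Z), Q.P Z j z → IsHodge T Z j z) {N : ℕ∞}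
    (hG : GeneratedOver T.W Q.P R.P X N) {n j : ℕ} {x : T.W.H (pw X n)}
    (hx : R.P (pw X n) j x) : IsHodge T (pw X n) j x := by
  classical
  have hex := wt_bounded hQ hG
  set L := Nat.find hex with hL
  have hLs := Nat.find_spec hex
  have hL0 : L = 0 := by
    by_contra hne
    refine Nat.find_min hex (m := L - 1) (by omega) ?_
    intro n x hx w hw
    by_cases hwL : (L : ℤ) < |w|
    · exact hLs n x hx w hwL
    have hwe : |w| = L := by
      have : ((L - 1 : ℕ) : ℤ) = (L : ℤ) - 1 := by push_cast [Nat.one_le_iff_ne_zero.2 hne]; ring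
      omega
    have h1 : xp T.W x x ∈ R.sys.C ((pw X n).prod (pw X n)) := Sys.xp_mem_C R.sys hx hx
    have h2 : T.W.map (pwAdd X n n).inv (xp T.W x x) ∈ R.sys.C (pw X (n + n + 1)) :=
      R.sys.map _ h1
    have h3 := hLs _ _ h2 (2 * w) (by
      rw [abs_mul, hwe, abs_two]
      have : (0 : ℤ) < L := by exact_mod_cast Nat.pos_of_ne_zero hne
      omega)
    have h4 : wt T ((pw X n).prod (pw X n)) (2 * w) (1 ⊗ₜ[T.W.K] xp T.W x x) = 0 := by
      have h5 := wt_comm (T := T) (f := mp T (pwAdd X n n).hom)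
        (fun x => hop_mp (pwAdd X n n).hom x) (2 * w)
        (1 ⊗ₜ[T.W.K] (T.W.map (pwAdd X n n).inv (xp T.W x x)))
      rw [h3, map_zero, mp_tmul, ← T.W.map_comp, Iso.hom_inv_id, T.W.map_id] at h5
      exact h5
    have h5 : (1 ⊗ₜ[T.W.K] xp T.W x x : CH T ((pw X n).prod (pw X n))) =
        mp T (fst _ _) (1 ⊗ₜ[T.W.K] x) * mp T (snd _ _) (1 ⊗ₜ[T.W.K] x) := by
      rw [mp_tmul, mp_tmul, Algebra.TensorProduct.tmul_mul_tmul, one_mul]
      rfl
    rw [h5, wt_square fun v hv => hLs n x hx v (by rw [← hwe]; exact hv)] at h4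
    exact mp_xp_eq_zero h4
  have h0 : hop T (pw X n) (1 ⊗ₜ[T.W.K] x) = 0 := by
    obtain ⟨l, hl⟩ := exists_lev T (pw X n)
    rw [wt_sum hl (1 ⊗ₜ[T.W.K] x), map_sum]
    refine Finset.sum_eq_zero fun w _ => ?_
    rw [hop_wt]
    by_cases hw : w = 0
    · rw [hw, Int.cast_zero, zero_smul]
    · rw [hLs n x (ClassPred.sp_of (Q := R) hx) w, smul_zero]
      rw [← hL, hL0]
      exact_mod_cast abs_pos.2 hw
  exact ClassPred.of_sp (Q := hodgePred T) (hodge_of_hop h0) (R.gr hx)

end Pool.Agent.Q57.ZI
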