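import Pool.Agent.Q57.ZI.PerFin
import Pool.Agent.Q57.ZI.Wt
import Pool.Agent.Q57.HM.Fin

/-!
# Motivated classes of finite index among the Hodge classes or the de Rham-Betti classes
-/

open CategoryTheory AlgebraicGeometry

universe u

namespace Pool.Agent.Q57.ZI

open Module
open Pool.Agent.H914 Pool.Agent.H914.VarClass Pool.Agent.H914.VarClass.Obj
  Pool.Agent.H914.WeilCohomology
open Pool.Agent.Q57.DS
open Pool.Agent.Q55 (motPred)
open Pool.Agent.Y133.Half
open Pool.Agent.Y121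
open Pool.Agent.Q50.MO (Motivated)

variable {k : Type u} [Field k] {𝒱 : VarClass k} {ops : CycleOps 𝒱}

lemma index_le {t t' s : ℕ → ℕ} {N N' : ℕ∞} (h : HasIndex t s N) (h' : HasIndex t' s N')
    (hle : ∀ n, t n ≤ t' n) : N ≤ N' := by
  have h1 : (N : ENNReal) ≤ N' := by
    refine le_of_tendsto_of_tendsto' h h' fun n => ?_
    exact ENNReal.div_le_div_right (by exact_mod_cast hle n) _
  exact_mod_cast h1

variable (T : AHS.HodgeTheory ops) {F : Subfield ℂ} (D : DRStr T F) (X : 𝒱.Obj)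

lemma dimBy_mono {W : WeilCohomology.{u, 0} ops} {Q R : ClassPred W} {Z : 𝒱.Obj}
    (h : ∀ j c, Q.P Z j c → R.P Z j c) : dimBy W Q.P Z ≤ dimBy W R.P Z := by
  rw [ClassPred.dimBy_eq, ClassPred.dimBy_eq]
  refine Submodule.finrank_mono ?_
  intro c hc
  refine ClassPred.sp_ind (Q := Q) (q := fun c => c ∈ R.sp Z) ?_ ?_ ?_ hc
  · intro j x hx; exact ClassPred.sp_of (h j x hx)
  · exact Submodule.zero_mem _
  · intro a b ha hb; exact Submodule.add_mem _ ha hb

theorem finite_index [IsAlgClosed F] [Nontrivial (T.W.H X)] :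
    ∃ N N' M : ℕ∞, 1 ≤ N ∧ 1 ≤ N' ∧ 1 ≤ M ∧
      Index (fun n => dimP (IsDRB D) (pw X n)) (fun n => dimP (Motivated T.W) (pw X n)) N ∧
      Index (fun n => dimP (AHS.IsHodge T) (pw X n)) (fun n => dimP (Motivated T.W) (pw X n)) N' ∧
      Index (fun n => dimP (IsDRB D) (pw X n)) (fun n => cycRk ops (pw X n)) (N * M) ∧
      Index (fun n => dimP (AHS.IsHodge T) (pw X n)) (fun n => cycRk ops (pw X n)) (N' * M) ∧
      (N ≠ ⊤ → N ≤ N' ∧ ∀ n j c, IsDRB D (pw X n) j c → AHS.IsHodge T (pw X n) j c) ∧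
      (N' ≠ ⊤ → N' ≤ N ∧ ∀ n j c, AHS.IsHodge T (pw X n) j c → IsDRB D (pw X n) j c) := by
  obtain ⟨N, M, h1, m1, h2, m2, m3, _, _, h3⟩ := h_tower D X
  obtain ⟨N', M', k1, _, k2, m5, m6, _, _, k3⟩ := Pool.Agent.Q57.HM.h_tower T X
  obtain rfl : M' = M := by
    have h4 := tendsto_nhds_unique m5 m2
    exact_mod_cast h4
  have e1 : N ≠ ⊤ → ∀ n j c, IsDRB D (pw X n) j c → AHS.IsHodge T (pw X n) j c := by
    intro hN n j c hc
    have h4 := generated_iff.1 (h3 hN)
    rw [mot_fun, drb_fun] at h4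
    rw [drb_fun] at hc
    exact hodge_of_generated (T := AHS.toH T) (Q := motPred T.W)
      (R := Pool.Agent.Y133.Per.drbPred (toGr D).toDeRham)
      (fun Z j z hz => Pool.Agent.Q50.MO.mot_hodge (T := AHS.toH T) hz) h4 hc
  have e2 : N' ≠ ⊤ → ∀ n j c, AHS.IsHodge T (pw X n) j c → IsDRB D (pw X n) j c := by
    intro hN n j c hc
    have h4 := generated_iff.1 (k3 hN)
    rw [mot_fun] at h4
    rw [drb_fun]
    exact drb_of_generated (D := (toGr D).toDeRham) (Q := motPred T.W)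
      (R := AH.hodgePred (AHS.toH T))
      (fun Z j z hz => (Pool.Agent.Q57.DR.mot_drb (toGr D) hz).2) h4 hc
  refine ⟨N, N', M', h1, k1, m1, h2, k2, m3, m6, fun hN => ⟨?_, e1 hN⟩, fun hN => ⟨?_, e2 hN⟩⟩
  · refine index_le h2 k2 fun n => ?_
    rw [drb_fun]
    refine dimBy_mono (Q := Pool.Agent.Y133.Per.drbPred (toGr D).toDeRham)
      (R := AH.hodgePred (AHS.toH T)) fun j c hc => ?_
    refine e1 hN n j c ?_
    rw [drb_fun]
    exact hc
  · refine index_le k2 h2 fun n => ?_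
    rw [drb_fun]
    refine dimBy_mono (R := Pool.Agent.Y133.Per.drbPred (toGr D).toDeRham)
      (Q := AH.hodgePred (AHS.toH T)) fun j c hc => ?_
    have h5 := e2 hN n j c hc
    rw [drb_fun] at h5
    exact h5

end Pool.Agent.Q57.ZI
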