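import Pool.Agent.Q57.ZI.Emb2
import Pool.Agent.Q57.ZI.GalFin
import Pool.Agent.Q57.ZI.Fin
import Pool.Agent.Q57.TM.Fin

/-!
# Motivated classes of finite index among the Hodge classes or the Tate classes
-/

open CategoryTheory AlgebraicGeometry

universe u w

namespace Pool.Agent.Q57.ZI

open Module
open Pool.Agent.H914 Pool.Agent.H914.VarClass Pool.Agent.H914.VarClass.Obj
  Pool.Agent.H914.WeilCohomology
open Pool.Agent.Q57.DS
open Pool.Agent.Q57.TM
open Pool.Agent.Q55 (motPred GaloisAction IsTate tatePred Virtually)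
open Pool.Agent.Y133.Half
open Pool.Agent.Y121
open Pool.Agent.Q50.MO (Motivated)

variable {k : Type u} [Field k] {𝒱 : VarClass k} {ops : CycleOps 𝒱}

variable (T : AHS.HodgeTheory ops) (X : 𝒱.Obj) [Nontrivial (T.W.H X)]

/-- The index of the Hodge classes over the motivated classes, in the larger cohomology. -/
lemma ext_hodge_tower {W' : WeilCohomology.{u, 0} ops} (C : Compare T.W W') {N' : ℕ∞}
    (h : Index (fun n => dimP (AHS.IsHodge T) (pw X n)) (fun n => dimP (Motivated T.W) (pw X n))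
      N') (hN : N' ≠ ⊤) :
    GeneratedOver W' (extPred C T.rat (motPred T.W)).P
      (extPred C T.rat (AH.hodgePred (AHS.toH T))).P X N' := by
  have hX' : Nontrivial (W'.H X) := nontrivial' C T.rat X
  have hle : ∀ {Z : 𝒱.Obj} {j : ℕ} {c : W'.H Z}, (extPred C T.rat (motPred T.W)).P Z j c →
      (extPred C T.rat (AH.hodgePred (AHS.toH T))).P Z j c := by
    intro Z j c hc
    refine Submodule.span_mono (Set.image_mono ?_) hc
    intro x hx
    exact Pool.Agent.Q50.MO.mot_hodge (T := AHS.toH T) hx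
  obtain ⟨N, M', h1, h2, h3, h4, h5, h6, h7, -, -, h8, -⟩ :=
    (extPred C T.rat (motPred T.W)).tower (extPred C T.rat (AH.hodgePred (AHS.toH T))) hle X
      (fun n => ext_nondeg C T.rat (motPred T.W) (pw X n)
        (Pool.Agent.Q57.DR.mot_nondeg (T := AHS.toH T) (pw X n)))
  have e1 : ∀ n, dimBy W' (extPred C T.rat (motPred T.W)).P (pw X n) =
      dimP (Motivated T.W) (pw X n) := fun n => by
    rw [ClassPred.dimBy_eq, mot_fun]
    exact ext_finrank C T.rat (motPred T.W) (pw X n)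
  have e2 : ∀ n, dimBy W' (extPred C T.rat (AH.hodgePred (AHS.toH T))).P (pw X n) =
      dimP (AHS.IsHodge T) (pw X n) := fun n => by
    rw [ClassPred.dimBy_eq]
    exact ext_finrank C T.rat (AH.hodgePred (AHS.toH T)) (pw X n)
  simp only [e1, e2] at h3
  obtain rfl : N = N' := index_unique h3 h
  exact h8 hN

theorem t_finite_index : ∃ N' M : ℕ∞, 1 ≤ N' ∧ 1 ≤ M ∧
      Index (fun n => dimP (AHS.IsHodge T) (pw X n)) (fun n => dimP (Motivated T.W) (pw X n)) N' ∧
      Index (fun n => dimP (Motivated T.W) (pw X n)) (fun n => cycRk ops (pw X n)) M ∧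
      ∀ (W' : WeilCohomology.{u, 0} ops) (C : Compare T.W W') (Γ : Type w) [Group Γ]
        (G : GaloisAction W' Γ), Nonempty (W'.K →+* ℂ) → ∃ N : ℕ∞, 1 ≤ N ∧
        Index (fun n => dimP (IsTate G) (pw X n)) (fun n => dimP (Motivated T.W) (pw X n)) N ∧
        Index (fun n => dimP (IsTate G) (pw X n)) (fun n => cycRk ops (pw X n)) (N * M) ∧
        (N' ≠ ⊤ → N' ≤ N ∧ ∀ n j c, AHS.IsHodge T (pw X n) j c →
          IsTate G (pw X n) j (C.f (pw X n) c)) ∧
        (N ≠ ⊤ → N ≤ N' ∧ ∀ n j c, IsTate G (pw X n) j c →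
          Img C (AHS.IsHodge T) (pw X n) j c) := by
  obtain ⟨N', M, k1, k2, k3, k4, _, _, _, k8⟩ := Pool.Agent.Q57.HM.h_tower T X
  refine ⟨N', M, k1, k2, k3, k4, ?_⟩
  intro W' C Γ _ G hne
  have k4' := k4
  rw [mot_fun] at k4'
  obtain ⟨N, m1, m2, m3, _, m5⟩ := t_tower T X k4' C G
  rw [← mot_fun] at m2 m5
  have e1 : N' ≠ ⊤ → ∀ n j c, (extPred C T.rat (AH.hodgePred (AHS.toH T))).P (pw X n) j c →
      IsTate G (pw X n) j c := by
    intro hN n j c hc
    exact tate_of_generated G (Q := extPred C T.rat (motPred T.W))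
      (R := extPred C T.rat (AH.hodgePred (AHS.toH T)))
      (fun Z j z hz => ext_tate C T.rat G hz) (ext_hodge_tower T X C k3 hN) hc
  have e2 : N ≠ ⊤ → ∀ n j c, IsTate G (pw X n) j c →
      (extPred C T.rat (AH.hodgePred (AHS.toH T))).P (pw X n) j c := by
    intro hN n j c hc
    have h4 := m5 hN
    rw [mot_fun] at h4
    exact hodge_of_generated' (T := AHS.toH T) C hne (Q := motPred T.W) (R := tatePred G)
      (fun Z j z hz => Pool.Agent.Q50.MO.mot_hodge (T := AHS.toH T) hz) h4 hc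
  have e3 : ∀ n, dimBy W' (extPred C T.rat (AH.hodgePred (AHS.toH T))).P (pw X n) =
      dimP (AHS.IsHodge T) (pw X n) := fun n => by
    rw [ClassPred.dimBy_eq]
    exact ext_finrank C T.rat (AH.hodgePred (AHS.toH T)) (pw X n)
  refine ⟨N, m1, m2, m3, fun hN => ⟨?_, fun n j c hc => ?_⟩, fun hN => ⟨?_, fun n j c hc => ?_⟩⟩
  · refine index_le k3 m2 fun n => ?_
    rw [← e3]
    exact dimBy_mono (Q := extPred C T.rat (AH.hodgePred (AHS.toH T))) (R := tatePred G)
      fun j c hc => e1 hN n j c hc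
  · exact e1 hN n j _ (f_mem C (S := {x | (AH.hodgePred (AHS.toH T)).P (pw X n) j x}) hc)
  · refine index_le m2 k3 fun n => ?_
    rw [← e3]
    exact dimBy_mono (R := extPred C T.rat (AH.hodgePred (AHS.toH T))) (Q := tatePred G)
      fun j c hc => e2 hN n j c hc
  · exact e2 hN n j c hc

end Pool.Agent.Q57.ZI
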