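import Pool.Agent.Q57.ZI.Wt
import Pool.Agent.Q57.TM.Pred
import Pool.Agent.W437.HD.Fixed

/-!
# Classes with coefficients in a field which can be embedded into the complex numbers
-/

open CategoryTheory AlgebraicGeometry TensorProduct

universe u

namespace Pool.Agent.Q57.ZI

open Module
open Pool.Agent.H914 Pool.Agent.H914.VarClass Pool.Agent.H914.VarClass.Obj
  Pool.Agent.H914.WeilCohomology
open Pool.Agent.Y133.Half
open Pool.Agent.Y121.AH
open Pool.Agent.Q50.BL
open Pool.Agent.Q57.TM

variable {k : Type u} [Field k] {𝒱 : VarClass k} {ops : CycleOps 𝒱} {T : HodgeTheory ops}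
  {W' : WeilCohomology.{u, 0} ops} (C : Compare T.W W') (σ : W'.K →+* ℂ) {X Y Z P P' : 𝒱.Obj}

/-- The basis of `H'(X)`. -/
noncomputable def bas (X : 𝒱.Obj) : Basis (Fin (finrank T.W.K (T.W.H X))) W'.K (W'.H X) :=
  Classical.choose (exists_basis C T.rat (Module.finBasis T.W.K (T.W.H X)))

lemma bas_apply (i : Fin (finrank T.W.K (T.W.H X))) :
    bas C X i = C.f X (Module.finBasis T.W.K (T.W.H X) i) :=
  Classical.choose_spec (exists_basis C T.rat (Module.finBasis T.W.K (T.W.H X))) i

/-- The semilinear extension of the inverse of the comparison isomorphism. -/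
noncomputable def phi (X : 𝒱.Obj) : W'.H X →+ CH T X where
  toFun x := ∑ i, σ ((bas C X).repr x i) • ((1 : ℂ) ⊗ₜ[T.W.K] Module.finBasis T.W.K (T.W.H X) i)
  map_zero' := by simp
  map_add' x y := by
    rw [← Finset.sum_add_distrib]
    refine Finset.sum_congr rfl fun i _ => ?_
    rw [map_add, Finsupp.add_apply, map_add, add_smul]

lemma phi_apply (x : W'.H X) : phi C σ X x =
    ∑ i, σ ((bas C X).repr x i) • ((1 : ℂ) ⊗ₜ[T.W.K] Module.finBasis T.W.K (T.W.H X) i) := rfl

lemma phi_smul (r : W'.K) (x : W'.H X) : phi C σ X (r • x) = σ r • phi C σ X x := by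
  rw [phi_apply, phi_apply, Finset.smul_sum]
  refine Finset.sum_congr rfl fun i _ => ?_
  rw [map_smul, Finsupp.smul_apply, smul_eq_mul, map_mul, mul_smul]

lemma phi_f (a : T.W.H X) : phi C σ X (C.f X a) = (1 : ℂ) ⊗ₜ[T.W.K] a := by
  classical
  have h1 : ∀ i, ∃ q : ℚ, (q : T.W.K) = (Module.finBasis T.W.K (T.W.H X)).repr a i :=
    fun i => T.rat _
  choose q hq using h1
  have h2 : a = ∑ i, (q i : T.W.K) • Module.finBasis T.W.K (T.W.H X) i := by
    conv_lhs => rw [← (Module.finBasis T.W.K (T.W.H X)).sum_repr a]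
    exact Finset.sum_congr rfl fun i _ => by rw [hq]
  have h3 : C.f X a = ∑ i, (q i : W'.K) • bas C X i := by
    rw [h2, map_sum]
    refine Finset.sum_congr rfl fun i _ => ?_
    rw [f_smul, bas_apply]
  have h4 : ∀ i, (bas C X).repr (C.f X a) i = (q i : W'.K) := by
    intro i
    rw [h3, map_sum, Finsupp.finsetSum_apply, Finset.sum_eq_single i]
    · rw [map_smul, Basis.repr_self, Finsupp.smul_apply, Finsupp.single_eq_same, smul_eq_mul,
        mul_one]
    · intro j _ hj
      rw [map_smul, Basis.repr_self, Finsupp.smul_apply, Finsupp.single_eq_of_ne (Ne.symm hj),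
        smul_zero]
    · intro h; exact absurd (Finset.mem_univ i) h
  rw [phi_apply]
  conv_rhs => rw [h2, tmul_sum]
  refine Finset.sum_congr rfl fun i _ => ?_
  rw [h4, tmul_smul, map_ratCast, ← algebraMap_smul ℂ (q i : T.W.K), map_ratCast]

lemma phi_mul (x y : W'.H X) : phi C σ X (x * y) = phi C σ X x * phi C σ X y := by
  refine f_ind C (p := fun x => phi C σ X (x * y) = phi C σ X x * phi C σ X y) ?_ ?_ ?_ x
  · rw [zero_mul, map_zero, zero_mul]
  · intro a b ha hb; rw [add_mul, map_add, ha, hb, map_add, add_mul]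
  · intro r a
    refine f_ind C (p := fun y => phi C σ X ((r • C.f X a) * y) =
      phi C σ X (r • C.f X a) * phi C σ X y) ?_ ?_ ?_ y
    · rw [mul_zero, map_zero, mul_zero]
    · intro b c hb hc; rw [mul_add, map_add, hb, hc, map_add, mul_add]
    · intro s b
      rw [smul_mul_smul_comm, ← map_mul, phi_smul, phi_smul, phi_smul, phi_f, phi_f, phi_f,
        map_mul, smul_mul_smul_comm, Algebra.TensorProduct.tmul_mul_tmul, one_mul]

lemma phi_map (g : X ⟶ Y) (y : W'.H Y) :
    phi C σ X (W'.map g y) = mp T g (phi C σ Y y) := by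
  refine f_ind C (p := fun y => phi C σ X (W'.map g y) = mp T g (phi C σ Y y)) ?_ ?_ ?_ y
  · rw [map_zero, map_zero, map_zero, map_zero]
  · intro a b ha hb; rw [map_add, map_add, ha, hb, map_add, map_add]
  · intro r a
    rw [map_smul, ← f_map, phi_smul, phi_smul, phi_f, phi_f, map_smul, mp_tmul]

lemma phi_push (g : X ⟶ Y) (x : W'.H X) :
    phi C σ Y (W'.push g x) = ps T g (phi C σ X x) := by
  refine f_ind C (p := fun x => phi C σ Y (W'.push g x) = ps T g (phi C σ X x)) ?_ ?_ ?_ x
  · rw [map_zero, map_zero, map_zero, map_zero]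
  · intro a b ha hb; rw [map_add, map_add, ha, hb, map_add, map_add]
  · intro r a
    rw [map_smul, ← f_push C T.rat, phi_smul, phi_smul, phi_f, phi_f, map_smul, ps_tmul]

/-- The rational vectors are linearly independent over the complex numbers. -/
lemma phi_inj {x : W'.H X} (h : phi C σ X x = 0) : x = 0 := by
  have h1 : ∀ i, σ ((bas C X).repr x i) = 0 := by
    intro i
    have h2 := congrArg (((Module.finBasis T.W.K (T.W.H X)).baseChange ℂ).repr) h
    have h3 := DFunLike.congr_fun h2 i
    rw [phi_apply, map_sum, Finsupp.finsetSum_apply, map_zero, Finsupp.zero_apply,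
      Finset.sum_eq_single i] at h3
    · rw [map_smul, Finsupp.smul_apply, ← Basis.baseChange_apply, Basis.repr_self,
        Finsupp.single_eq_same, smul_eq_mul, mul_one] at h3
      exact h3
    · intro j _ hj
      rw [map_smul, Finsupp.smul_apply, ← Basis.baseChange_apply, Basis.repr_self,
        Finsupp.single_eq_of_ne (Ne.symm hj), smul_zero]
    · intro h; exact absurd (Finset.mem_univ i) h
  apply (bas C X).repr.injective
  ext i
  rw [map_zero, Finsupp.zero_apply]
  exact (map_eq_zero σ).1 (h1 i)

/-- The components of the images under correspondences which are killed by the Hodge operator. -/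
lemma wt_op {z : CH T (P.prod P')} (hz : hop T (P.prod P') z = 0) (w : ℤ) (x : CH T P) :
    wt T P' w (ps T (snd P P') (z * mp T (fst P P') x)) =
      ps T (snd P P') (z * mp T (fst P P') (wt T P w x)) := by
  let g : CH T P →ₗ[ℂ] CH T P' :=
    { toFun := fun x => ps T (snd P P') (z * mp T (fst P P') x)
      map_add' := fun a b => by rw [map_add, mul_add z, map_add]
      map_smul' := fun r a => by
        rw [map_smul, mul_smul_comm, map_smul]
        rfl }
  have h := wt_comm (T := T) (f := g) (fun x => by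
    change hop T P' (ps T (snd P P') (z * mp T (fst P P') x)) =
      ps T (snd P P') (z * mp T (fst P P') (hop T P x))
    rw [hop_ps, hop_mul, hz, zero_mul, zero_add, hop_mp]) w x
  exact h

/-- The classes generated over the images of Hodge classes have bounded components. -/
theorem phi_bounded {Q : ClassPred T.W} {R : ClassPred W'}
    (hQ : ∀ (Z : 𝒱.Obj) (j : ℕ) (z : T.W.H Z), Q.P Z j z → IsHodge T Z j z) {N : ℕ∞}
    (hG : GeneratedOver W' (Img C Q.P) R.P X N) : ∃ L : ℕ, ∀ n, ∀ x ∈ R.sys.C (pw X n),
      ∀ w : ℤ, (L : ℤ) < |w| → wt T (pw X n) w (phi C σ (pw X n) x) = 0 := by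
  obtain ⟨r, c, -, -, hG⟩ := hG
  choose l hl using fun i => exists_lev T (pw X (c i).1)
  refine ⟨∑ i, l i, fun n x hx w hw => ?_⟩
  have hmem : ∀ j (z : W'.H (pw X n)), R.P (pw X n) j z →
      z ∈ genOver W' (Img C Q.P) X c n := hG n
  have hw0 : w ≠ 0 := by
    rintro rfl
    rw [abs_zero] at hw
    exact absurd hw (by push_cast; exact not_lt.2 (Finset.sum_nonneg fun _ _ => by positivity))
  have key : ∀ x ∈ genOver W' (Img C Q.P) X c n,
      wt T (pw X n) w (phi C σ (pw X n) x) = 0 := by
    intro x hx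
    induction hx using Submodule.span_induction with
    | mem x hx =>
      rcases hx with ⟨j, hj⟩ | hx
      · have hj' : x ∈ im C {a | Q.P (pw X n) j a} := hj
        induction hj' using Submodule.span_induction with
        | mem x hx =>
          obtain ⟨a, ha, rfl⟩ := hx
          have h1 : hop T (pw X n) (1 ⊗ₜ[T.W.K] a) = 0 :=
            hop_hodge (ClassPred.sp_of (Q := hodgePred T) (hQ _ _ _ ha))
          rw [phi_f, wt_eig (a := 0) (by rw [h1, Int.cast_zero, zero_smul]), if_neg (Ne.symm hw0)]
        | zero => rw [map_zero, map_zero]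
        | add a b ha' hb' ha hb => rw [map_add, map_add, ha ha', hb hb', add_zero]
        | smul s a ha' ha => rw [phi_smul, map_smul, ha ha', smul_zero]
      · obtain ⟨i, hx⟩ := Set.mem_iUnion.1 hx
        obtain ⟨m, z, hz, rfl⟩ := hx
        change wt T (pw X n) w (phi C σ (pw X n) (W'.push (snd (pw X (c i).1) (pw X n))
          (z * W'.map (fst (pw X (c i).1) (pw X n)) (c i).2))) = 0
        have hz' : z ∈ im C {a | Q.P ((pw X (c i).1).prod (pw X n)) m a} := hz
        clear hz hx
        induction hz' using Submodule.span_induction with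
        | mem z hz =>
          obtain ⟨a, ha, rfl⟩ := hz
          rw [phi_push, phi_mul, phi_map, phi_f]
          have h1 : hop T _ (1 ⊗ₜ[T.W.K] a) = 0 :=
            hop_hodge (ClassPred.sp_of (Q := hodgePred T) (hQ _ _ _ ha))
          have h4 : (l i : ℤ) < |w| := by
            refine lt_of_le_of_lt ?_ hw
            exact_mod_cast Finset.single_le_sum (f := l) (fun _ _ => Nat.zero_le _)
              (Finset.mem_univ i)
          rw [wt_op h1, wt_lev (hl i) h4, map_zero, mul_zero, map_zero]
        | zero => rw [zero_mul, map_zero, map_zero, map_zero]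
        | add a b ha' hb' ha hb =>
          rw [add_mul, map_add, map_add, map_add, ha, hb, add_zero]
        | smul s a ha' ha =>
          rw [smul_mul_assoc, map_smul, phi_smul, map_smul, ha, smul_zero]
    | zero => rw [map_zero, map_zero]
    | add a b _ _ ha hb => rw [map_add, map_add, ha, hb, add_zero]
    | smul s a _ ha => rw [phi_smul, map_smul, ha, smul_zero]
  refine key x ?_
  refine ClassPred.sp_ind (Q := R) (q := fun x => x ∈ genOver W' (Img C Q.P) X c n) ?_ ?_ ?_ hx
  · intro j x hx; exact hmem j x hx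
  · exact Submodule.zero_mem _
  · intro a b ha hb; exact Submodule.add_mem _ ha hb

/-- The Hodge operator kills the classes which are finitely generated over Hodge classes. -/
theorem hop_phi {Q : ClassPred T.W} {R : ClassPred W'}
    (hQ : ∀ (Z : 𝒱.Obj) (j : ℕ) (z : T.W.H Z), Q.P Z j z → IsHodge T Z j z) {N : ℕ∞}
    (hG : GeneratedOver W' (Img C Q.P) R.P X N) {n : ℕ} {x : W'.H (pw X n)}
    (hx : x ∈ R.sys.C (pw X n)) : hop T (pw X n) (phi C σ (pw X n) x) = 0 := by
  classical
  have hex := phi_bounded C σ hQ hG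
  set L := Nat.find hex with hL
  have hLs := Nat.find_spec hex
  have hL0 : L = 0 := by
    by_contra hne
    refine Nat.find_min hex (m := L - 1) (by omega) ?_
    intro n x hx w hw
    by_cases hwL : (L : ℤ) < |w|
    · exact hLs n x hx w hwL
    have hwe : |w| = L := by
      have : ((L - 1 : ℕ) : ℤ) = (L : ℤ) - 1 := by push_cast [Nat.one_le_iff_ne_zero.2 hne]; ring
      omega
    have h1 : xp W' x x ∈ R.sys.C ((pw X n).prod (pw X n)) := Sys.xp_mem_C R.sys hx hx
    have h2 : W'.map (pwAdd X n n).inv (xp W' x x) ∈ R.sys.C (pw X (n + n + 1)) :=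
      R.sys.map _ h1
    have h3 := hLs _ _ h2 (2 * w) (by
      rw [abs_mul, hwe, abs_two]
      have : (0 : ℤ) < L := by exact_mod_cast Nat.pos_of_ne_zero hne
      omega)
    have h4 : wt T ((pw X n).prod (pw X n)) (2 * w) (phi C σ _ (xp W' x x)) = 0 := by
      have h5 := wt_comm (T := T) (f := mp T (pwAdd X n n).hom)
        (fun x => hop_mp (pwAdd X n n).hom x) (2 * w)
        (phi C σ _ (W'.map (pwAdd X n n).inv (xp W' x x)))
      rw [h3, map_zero, ← phi_map, ← W'.map_comp, Iso.hom_inv_id, W'.map_id] at h5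
      exact h5
    have h5 : phi C σ ((pw X n).prod (pw X n)) (xp W' x x) =
        mp T (fst _ _) (phi C σ _ x) * mp T (snd _ _) (phi C σ _ x) := by
      rw [← phi_map, ← phi_map, ← phi_mul]
      rfl
    rw [h5, wt_square fun v hv => hLs n x hx v (by rw [← hwe]; exact hv)] at h4
    exact mp_xp_eq_zero h4
  obtain ⟨l, hl⟩ := exists_lev T (pw X n)
  rw [wt_sum hl (phi C σ (pw X n) x), map_sum]
  refine Finset.sum_eq_zero fun w _ => ?_
  rw [hop_wt]
  by_cases hw : w = 0
  · rw [hw, Int.cast_zero, zero_smul]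
  · rw [hLs n x hx w, smul_zero]
    rw [← hL, hL0]
    exact_mod_cast abs_pos.2 hw

end Pool.Agent.Q57.ZI
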