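import Pool.Agent.Q57.ZI.Emb

/-!
# Classes which are finitely generated over Hodge classes are combinations of Hodge classes
-/

open CategoryTheory AlgebraicGeometry TensorProduct

universe u

namespace Pool.Agent.Q57.ZI

open Module
open Pool.Agent.H914 Pool.Agent.H914.VarClass Pool.Agent.H914.VarClass.Obj
  Pool.Agent.H914.WeilCohomology
open Pool.Agent.Y133.Half
open Pool.Agent.Y121.AH
open Pool.Agent.Q50.BL
open Pool.Agent.Q57.TM

variable {k : Type u} [Field k] {𝒱 : VarClass k} {ops : CycleOps 𝒱} {T : HodgeTheory ops}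
  {W' : WeilCohomology.{u, 0} ops} (C : Compare T.W W') {X Y Z P P' : 𝒱.Obj}

/-- The vector with the given coordinates. -/
noncomputable def vec (X : 𝒱.Obj) : (Fin (finrank T.W.K (T.W.H X)) → ℂ) →ₗ[ℂ] CH T X :=
  Fintype.linearCombination ℂ fun i => (1 : ℂ) ⊗ₜ[T.W.K] Module.finBasis T.W.K (T.W.H X) i

lemma vec_apply (v : Fin (finrank T.W.K (T.W.H X)) → ℂ) : vec (T := T) X v =
    ∑ i, v i • ((1 : ℂ) ⊗ₜ[T.W.K] Module.finBasis T.W.K (T.W.H X) i) := rfl

/-- The vectors all conjugates of which are killed by the Hodge operator. -/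
noncomputable def conj (T : HodgeTheory ops) (X : 𝒱.Obj) :
    Submodule ℂ (Fin (finrank T.W.K (T.W.H X)) → ℂ) where
  carrier := {v | ∀ τ : ℂ ≃+* ℂ, hop T X (vec X fun i => τ (v i)) = 0}
  add_mem' {a b} ha hb τ := by
    have h1 : (fun i => τ ((a + b) i)) = (fun i => τ (a i)) + fun i => τ (b i) := by
      funext i
      rw [Pi.add_apply, Pi.add_apply, map_add]
    rw [h1, map_add, map_add, ha τ, hb τ, add_zero]
  zero_mem' τ := by
    have h1 : (fun i : Fin (finrank T.W.K (T.W.H X)) =>
        τ ((0 : Fin (finrank T.W.K (T.W.H X)) → ℂ) i)) = 0 := by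
      funext i
      rw [Pi.zero_apply, map_zero]
    rw [h1, map_zero, map_zero]
  smul_mem' r a ha τ := by
    have h1 : (fun i => τ ((r • a) i)) = τ r • fun i => τ (a i) := by
      funext i
      rw [Pi.smul_apply, Pi.smul_apply, smul_eq_mul, smul_eq_mul, map_mul]
    rw [h1, map_smul, map_smul, ha τ, smul_zero]

/-- The elements all embeddings of which are killed by the Hodge operator are combinations of Hodge
classes. -/
theorem mem_of_hop (hne : Nonempty (W'.K →+* ℂ)) {x : W'.H X}
    (h : ∀ σ : W'.K →+* ℂ, hop T X (phi C σ X x) = 0) :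
    x ∈ im C ((hodgeSys T).C X : Set (T.W.H X)) := by
  obtain ⟨σ⟩ := hne
  have hV := Pool.Agent.W437.HD.span_rational (conj T X) (by
    intro τ v hv τ'
    exact hv (τ.trans τ'))
  have hx : phi C σ X x = vec X fun i => σ ((bas C X).repr x i) := rfl
  have hv : (fun i => σ ((bas C X).repr x i)) ∈ conj T X :=
    fun τ => h ((τ : ℂ →+* ℂ).comp σ)
  -- a rational projection
  obtain ⟨q, hq⟩ := ((hodgeSys T).C X).subtype.exists_leftInverse_of_injective
    (LinearMap.ker_eq_bot.2 ((hodgeSys T).C X).injective_subtype)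
  let p : Module.End T.W.K (T.W.H X) := ((hodgeSys T).C X).subtype ∘ₗ q
  have hp : ∀ a, p a ∈ (hodgeSys T).C X := fun a => (q a).2
  have hp1 : ∀ a ∈ (hodgeSys T).C X, p a = a := fun a ha =>
    congrArg Subtype.val (LinearMap.congr_fun hq (⟨a, ha⟩ : (hodgeSys T).C X))
  obtain ⟨p', hp'⟩ := exists_ext C T.rat p
  have h1 : ∀ y, phi C σ X (p' y) = p.baseChange ℂ (phi C σ X y) := by
    intro y
    refine f_ind C (p := fun y => phi C σ X (p' y) = p.baseChange ℂ (phi C σ X y)) ?_ ?_ ?_ y
    · rw [map_zero, map_zero, map_zero]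
    · intro a b ha hb; rw [map_add, map_add, ha, hb, map_add, map_add]
    · intro r a
      rw [map_smul, hp', phi_smul, phi_smul, phi_f, phi_f, map_smul, LinearMap.baseChange_tmul]
  have h2 : ∀ v ∈ conj T X, p.baseChange ℂ (vec X v) = vec X v := by
    intro v hv
    rw [hV] at hv
    induction hv using Submodule.span_induction with
    | mem w hw =>
      obtain ⟨hw, u, rfl⟩ := hw
      have h3 : vec (T := T) X (fun i => (u i : ℂ)) = (1 : ℂ) ⊗ₜ[T.W.K]
          (∑ i, (u i : T.W.K) • Module.finBasis T.W.K (T.W.H X) i) := by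
        rw [vec_apply, tmul_sum]
        refine Finset.sum_congr rfl fun i _ => ?_
        rw [tmul_smul, ← algebraMap_smul ℂ (u i : T.W.K), map_ratCast]
      have h4 := hw (RingEquiv.refl ℂ)
      simp only [RingEquiv.refl_apply] at h4
      rw [h3] at h4
      rw [h3, LinearMap.baseChange_tmul, hp1 _ (hodge_of_hop h4)]
    | zero => rw [map_zero, map_zero]
    | add a b _ _ ha hb => rw [map_add, map_add, ha, hb]
    | smul s a _ ha => rw [map_smul, map_smul, ha]
  have h3 : p' x = x := by
    rw [← sub_eq_zero]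
    refine phi_inj C σ ?_
    rw [map_sub, h1, hx, h2 _ hv, sub_self]
  rw [← h3]
  refine f_ind C (p := fun x => p' x ∈ im C ((hodgeSys T).C X : Set (T.W.H X))) ?_ ?_ ?_ x
  · rw [map_zero]; exact Submodule.zero_mem _
  · intro a b ha hb; rw [map_add]; exact Submodule.add_mem _ ha hb
  · intro r a
    rw [map_smul, hp']
    exact Submodule.smul_mem _ _ (f_mem C (hp a))

/-- **Classes which are finitely generated over the images of Hodge classes are linear combinations
of the images of Hodge classes.** -/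
theorem hodge_of_generated' (hne : Nonempty (W'.K →+* ℂ)) {Q : ClassPred T.W} {R : ClassPred W'}
    (hQ : ∀ (Z : 𝒱.Obj) (j : ℕ) (z : T.W.H Z), Q.P Z j z → IsHodge T Z j z) {N : ℕ∞}
    (hG : GeneratedOver W' (Img C Q.P) R.P X N) {n j : ℕ} {x : W'.H (pw X n)}
    (hx : R.P (pw X n) j x) : Img C (IsHodge T) (pw X n) j x := by
  have h1 := mem_of_hop C hne (x := x) fun σ => hop_phi C σ hQ hG (ClassPred.sp_of (Q := R) hx)
  have h2 : x ∈ (extPred C T.rat (hodgePred T)).sys.C (pw X n) := by
    rw [ext_sp]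
    exact h1
  exact ClassPred.of_sp (Q := extPred C T.rat (hodgePred T)) h2 (R.gr hx)

end Pool.Agent.Q57.ZI
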