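import Pool.Agent.Q57.DR.Lift

/-!
# Classes generated by finitely many classes over de Rham-Betti classes
-/

open CategoryTheory AlgebraicGeometry

open scoped TensorProduct

universe u v

namespace Pool.Agent.Q57.ZI

open Module
open Pool.Agent.H914 Pool.Agent.H914.VarClass Pool.Agent.H914.VarClass.Obj
  Pool.Agent.H914.WeilCohomology
open Pool.Agent.Y133.Per
open Pool.Agent.Y133.Half
open Pool.Agent.Q57.DR

lemma dim_pw {k : Type u} [Field k] {𝒱 : VarClass k} (X : 𝒱.Obj) (n : ℕ) :
    (pw X n).dim = (n + 1) * X.dim := by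
  induction n with
  | zero => rw [zero_add, one_mul]; rfl
  | succ n ih =>
    change (pw X n).dim + X.dim = _
    rw [ih]
    ring

section Alg

variable {F : Subfield ℂ}

/-- A number whose powers lie in a finite-dimensional space is algebraic. -/
lemma isIntegral_of_pow {U : Submodule F ℂ} [FiniteDimensional F U] {α : ℂ}
    (h : ∀ r : ℕ, α ^ (r + 1) ∈ U) : IsIntegral F α := by
  by_cases h0 : α = 0
  · rw [h0]; exact isIntegral_zero
  let V : Submodule F ℂ := Submodule.span F (Set.range fun r : ℕ => α ^ (r + 1))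
  have hV : V ≤ U := by
    rw [Submodule.span_le]
    rintro _ ⟨r, rfl⟩
    exact h r
  have hfg : V.FG := by
    have h1 : FiniteDimensional F V := Submodule.finiteDimensional_of_le hV
    exact (Submodule.fg_top _).1 h1.fg_top
  refine isIntegral_of_smul_mem_submodule (M := ℂ) V ?_ hfg α ?_
  · intro hb
    have h1 : α ^ (0 + 1) ∈ V := Submodule.subset_span ⟨0, rfl⟩
    rw [hb, Submodule.mem_bot, zero_add, pow_one] at h1
    exact h0 h1
  · intro n hn
    induction hn using Submodule.span_induction with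
    | mem x hx =>
      obtain ⟨r, rfl⟩ := hx
      refine Submodule.subset_span ⟨r + 1, ?_⟩
      change α ^ (r + 1 + 1) = α • α ^ (r + 1)
      rw [smul_eq_mul, pow_succ' α (r + 1)]
    | zero => rw [smul_zero]; exact Submodule.zero_mem _
    | add x y _ _ hx hy => rw [smul_add]; exact Submodule.add_mem _ hx hy
    | smul c x _ hx => rw [smul_comm]; exact Submodule.smul_mem _ _ hx

lemma mem_of_isIntegral [IsAlgClosed F] {α : ℂ} (h : IsIntegral F α) : α ∈ F := by
  have h1 : (minpoly F α).degree = 1 :=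
    IsAlgClosed.degree_eq_one_of_irreducible F (minpoly.irreducible h)
  obtain ⟨a, ha⟩ := minpoly.mem_range_of_degree_eq_one F α h1
  rw [← ha]
  exact a.2

end Alg

variable {k : Type u} [Field k] {𝒱 : VarClass k} {ops : CycleOps 𝒱}
  {W : WeilCohomology.{u, v} ops} [Algebra W.K ℂ] {F : Subfield ℂ} {X Y Z P P' : 𝒱.Obj}

/-- The normalised value of the pairing. -/
noncomputable def pr (W : WeilCohomology.{u, v} ops) [Algebra W.K ℂ] (P : 𝒱.Obj) (j : ℕ)
    (x : W.H P) (y : Base W.K (W.H P)) : ℂ :=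
  (twoPiI ^ P.dim)⁻¹ * baseTr (W.tr P) (twist j x * y)

lemma pr_add_left (j : ℕ) (x x' : W.H P) (y : Base W.K (W.H P)) :
    pr W P j (x + x') y = pr W P j x y + pr W P j x' y := by
  unfold pr
  rw [twist, tm_add, add_mul, map_add, mul_add]
  rfl

lemma pr_zero_left (j : ℕ) (y : Base W.K (W.H P)) : pr W P j 0 y = 0 := by
  unfold pr
  rw [twist, tm_zero, zero_mul, map_zero, mul_zero]

lemma pr_smul_left (j : ℕ) (r : W.K) (x : W.H P) (y : Base W.K (W.H P)) :
    pr W P j (r • x) y = algebraMap W.K ℂ r * pr W P j x y := by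
  unfold pr
  rw [twist, tm_smul, smul_mul_assoc, map_smul, smul_eq_mul]
  unfold twist
  ring

lemma baseTr_prod (u : Base W.K (W.H P)) (v : Base W.K (W.H P')) :
    baseTr (W.tr (P.prod P')) (baseMap (W.map (fst P P')) u * baseMap (W.map (snd P P')) v) =
      baseTr (W.tr P) u * baseTr (W.tr P') v := by
  refine base_ind (p := fun u => baseTr (W.tr (P.prod P'))
    (baseMap (W.map (fst P P')) u * baseMap (W.map (snd P P')) v) =
      baseTr (W.tr P) u * baseTr (W.tr P') v) ?_ ?_ ?_ u
  · rw [map_zero, zero_mul, map_zero, map_zero, zero_mul]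
  · intro r c
    refine base_ind (p := fun v => baseTr (W.tr (P.prod P'))
      (baseMap (W.map (fst P P')) (tm r c) * baseMap (W.map (snd P P')) v) =
      baseTr (W.tr P) (tm r c) * baseTr (W.tr P') v) ?_ ?_ ?_ v
    · rw [map_zero, mul_zero, map_zero, map_zero, mul_zero]
    · intro s d
      rw [baseMap_tm, baseMap_tm, tm_mul, baseTr_tm, baseTr_tm, baseTr_tm, W.tr_prod, map_mul]
      ring
    · intro a b ha hb
      rw [map_add, mul_add, map_add, ha, hb, map_add, mul_add]
  · intro a b ha hb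
    rw [map_add, add_mul, map_add, ha, hb, map_add, add_mul]

lemma tm_even_comm {j : ℕ} {c : W.H P} (hc : c ∈ W.gr P (2 * j)) (r : ℂ)
    (y : Base W.K (W.H P)) : tm r c * y = y * tm r c := by
  refine base_ind (p := fun y => (tm r c : Base W.K (W.H P)) * y = y * tm r c) ?_ ?_ ?_ y
  · rw [mul_zero, zero_mul]
  · intro s d
    rw [tm_mul, tm_mul, W.even_comm hc, mul_comm r]
  · intro a b ha hb
    rw [mul_add, ha, hb, add_mul]

/-- The pairing of external products. -/
lemma pr_prod {i j : ℕ} {x : W.H P} {x' : W.H P'} (hx' : x' ∈ W.gr P' (2 * j))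
    (y : Base W.K (W.H P)) (y' : Base W.K (W.H P')) :
    pr W (P.prod P') (i + j) (W.map (fst P P') x * W.map (snd P P') x')
      (baseMap (W.map (fst P P')) y * baseMap (W.map (snd P P')) y') =
      pr W P i x y * pr W P' j x' y' := by
  unfold pr
  have h1 : (twist (i + j) (W.map (fst P P') x * W.map (snd P P') x') :
      Base W.K (W.H (P.prod P'))) =
      baseMap (W.map (fst P P')) (twist i x) * baseMap (W.map (snd P P')) (twist j x') := by
    rw [twist, twist, twist, baseMap_tm, baseMap_tm, tm_mul, pow_add]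
  have h2 : (baseMap (W.map (snd P P')) (twist j x') : Base W.K (W.H (P.prod P'))) *
      baseMap (W.map (fst P P')) y =
      baseMap (W.map (fst P P')) y * baseMap (W.map (snd P P')) (twist j x') := by
    rw [twist, baseMap_tm]
    exact tm_even_comm (W.map_mem _ hx') _ _
  rw [h1, mul_assoc, ← mul_assoc (baseMap (W.map (snd P P')) (twist j x')), h2, ← mul_assoc,
    ← mul_assoc, ← map_mul, mul_assoc, ← map_mul, baseTr_prod, dim_prod, pow_add, mul_inv]
  ring

lemma pr_push (f : P ⟶ P') (hd : P.dim = P'.dim) (j : ℕ) (x : W.H P)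
    (y : Base W.K (W.H P')) : pr W P' j (W.push f x) y = pr W P j x (baseMap (W.map f) y) := by
  unfold pr
  rw [twist, twist, tr_pushC, hd]

variable {R : ClassPred W} {D : DeRham W F}

/-- The powers of the values of the pairing are values of the pairing. -/
lemma exists_pow {m j₀ : ℕ} {x₀ : W.H (pw X m)} (hx₀ : R.P (pw X m) j₀ x₀)
    {y₀ : Base W.K (W.H (pw X m))} (hy₀ : y₀ ∈ D.dR (pw X m)) (r : ℕ) :
    ∃ (n j : ℕ) (x : W.H (pw X n)) (y : Base W.K (W.H (pw X n))), R.P (pw X n) j x ∧
      y ∈ D.dR (pw X n) ∧ pr W (pw X n) j x y = pr W (pw X m) j₀ x₀ y₀ ^ (r + 1) := by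
  induction r with
  | zero => exact ⟨m, j₀, x₀, y₀, hx₀, hy₀, by rw [zero_add, pow_one]⟩
  | succ r ih =>
    obtain ⟨n, j, x, y, hx, hy, hxy⟩ := ih
    have hd : ((pw X n).prod (pw X m)).dim = (pw X (n + m + 1)).dim := by
      rw [dim_prod, dim_pw, dim_pw, dim_pw]
      ring
    refine ⟨n + m + 1, j + j₀, W.push (pwAdd X n m).hom
      (W.map (fst _ _) x * W.map (snd _ _) x₀), baseMap (W.map (pwAdd X n m).inv)
        (baseMap (W.map (fst _ _)) y * baseMap (W.map (snd _ _)) y₀), ?_, ?_, ?_⟩
    · exact R.push _ (by rw [hd]) (R.mul (R.map _ hx) (R.map _ hx₀))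
    · exact D.map _ _ ((D.form _).mul _ (D.map _ _ hy) _ (D.map _ _ hy₀))
    · rw [pr_push _ hd]
      have h1 : ∀ z : Base W.K (W.H ((pw X n).prod (pw X m))),
          baseMap (W.map (pwAdd X n m).hom) (baseMap (W.map (pwAdd X n m).inv) z) = z := by
        intro z
        refine base_ind (p := fun z : Base W.K (W.H ((pw X n).prod (pw X m))) =>
          baseMap (W.map (pwAdd X n m).hom) (baseMap (W.map (pwAdd X n m).inv) z) = z) ?_ ?_ ?_ z
        · rw [map_zero, map_zero]
        · intro s c
          rw [baseMap_tm, baseMap_tm, ← W.map_comp, Iso.hom_inv_id, W.map_id]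
        · intro a b ha hb
          rw [map_add, map_add, ha, hb]
      rw [h1, pr_prod (R.gr hx₀), hxy, pow_succ _ (r + 1)]

end Pool.Agent.Q57.ZI
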