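import Pool.Agent.Q57.ZI.Germ
import Pool.Agent.Q57.ZI.Per
import Pool.Agent.Q55.Galois

/-!
# Classes generated by finitely many classes over Tate classes
-/

open CategoryTheory AlgebraicGeometry

universe u v w

namespace Pool.Agent.Q57.ZI

open Module
open Pool.Agent.H914 Pool.Agent.H914.VarClass Pool.Agent.H914.VarClass.Obj
  Pool.Agent.H914.WeilCohomology
open Pool.Agent.Y133.Half
open Pool.Agent.Q55 (Virtually GaloisAction IsTate tatePred push_act SubAction)

lemma finiteIndex_of_fun {Γ : Type*} [Group Γ] (S : Subgroup Γ) {T : Type*} [Finite T]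
    (f : Γ → T) (h : ∀ g g', f g = f g' → g⁻¹ * g' ∈ S) : S.FiniteIndex := by
  have h1 : Finite (Γ ⧸ S) := Finite.of_injective (fun q : Γ ⧸ S => f q.out) fun q q' hq => by
    rw [← q.out_eq, ← q'.out_eq]
    exact QuotientGroup.eq.2 (h _ _ hq)
  exact Subgroup.finiteIndex_of_finite_quotient

variable {k : Type u} [Field k] {𝒱 : VarClass k} {ops : CycleOps 𝒱}
  {W : WeilCohomology.{u, v} ops} {Γ : Type w} [Group Γ] (G : GaloisAction W Γ) {X P P' : 𝒱.Obj}

/-- The normalised values of the pairing with the conjugates of a class. -/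
noncomputable def gv (P : 𝒱.Obj) (j : ℕ) (x y : W.H P) : Γ → W.K := fun g =>
  ((G.χ g : W.K) ^ j)⁻¹ * W.tr P ((G.ρ P).act g x * y)

lemma gv_add_left (j : ℕ) (x x' y : W.H P) :
    gv G P j (x + x') y = gv G P j x y + gv G P j x' y := by
  funext g
  rw [Pi.add_apply, gv, gv, gv, map_add, add_mul, map_add, mul_add]

lemma gv_smul_left (j : ℕ) (r : W.K) (x y : W.H P) :
    gv G P j (r • x) y = r • gv G P j x y := by
  funext g
  rw [Pi.smul_apply, gv, gv, map_smul, smul_mul_assoc, map_smul, smul_eq_mul, smul_eq_mul]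
  ring

lemma gv_zero_left (j : ℕ) (y : W.H P) : gv G P j 0 y = 0 := by
  funext g
  rw [gv, map_zero, zero_mul, map_zero, mul_zero]
  rfl

lemma gv_add_right (j : ℕ) (x y y' : W.H P) :
    gv G P j x (y + y') = gv G P j x y + gv G P j x y' := by
  funext g
  rw [Pi.add_apply, gv, gv, gv, mul_add ((G.ρ P).act g x), map_add, mul_add]

lemma gv_smul_right (j : ℕ) (r : W.K) (x y : W.H P) :
    gv G P j x (r • y) = r • gv G P j x y := by
  funext g
  rw [Pi.smul_apply, gv, gv, mul_smul_comm, map_smul, smul_eq_mul, smul_eq_mul]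
  ring

lemma virt_dom (P : 𝒱.Obj) : Virtually fun g => g ∈ (G.ρ P).dom :=
  ⟨_, (G.isGalois P).finiteIndex, fun _ hg => hg⟩

lemma gv_tate {j : ℕ} {x : W.H P} (hx : IsTate G P j x) (y : W.H P) :
    germ (gv G P j x y) = W.tr P (x * y) • germ (1 : Γ → W.K) := by
  rw [← germ_smul, germ_eq]
  refine Virtually.mono (Virtually.and (virt_dom G P) hx.2) fun g hg => ?_
  rw [gv, hg.2 hg.1, smul_mul_assoc, map_smul, smul_eq_mul, ← mul_assoc, inv_mul_cancel₀, one_mul,
    Pi.smul_apply, Pi.one_apply, smul_eq_mul, mul_one]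
  exact pow_ne_zero _ (G.χ g).ne_zero

lemma gv_prod {i j : ℕ} {x : W.H P} {x' : W.H P'} (hx' : x' ∈ W.gr P' (2 * j)) (y : W.H P)
    (y' : W.H P') :
    germ (gv G (P.prod P') (i + j) (W.map (fst P P') x * W.map (snd P P') x')
      (W.map (fst P P') y * W.map (snd P P') y')) =
      germ (gv G P i x y) * germ (gv G P' j x' y') := by
  rw [← germ_mul, germ_eq]
  refine Virtually.mono (Virtually.and (Virtually.and (G.map_act (fst P P'))
    (G.map_act (snd P P'))) (Virtually.and (virt_dom G (P.prod P')) (Virtually.and (virt_dom G P)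
      (virt_dom G P')))) ?_
  rintro g ⟨⟨h1, h2⟩, hd, hP, hP'⟩
  have h3 : W.map (snd P P') ((G.ρ P').act g x') ∈ W.gr (P.prod P') (2 * j) :=
    W.map_mem _ ((G.isGalois P').gr_mem g hP' _ _ hx')
  have e1 : (G.ρ (P.prod P')).act g (W.map (fst P P') x * W.map (snd P P') x') =
      W.map (fst P P') ((G.ρ P).act g x) * W.map (snd P P') ((G.ρ P').act g x') := by
    rw [map_mul, h1 hd hP, h2 hd hP']
  rw [Pi.mul_apply, gv, gv, gv, e1, mul_assoc,
    ← mul_assoc (W.map (snd P P') _), W.even_comm h3, mul_assoc (W.map (fst P P') y),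
    ← mul_assoc, ← map_mul, ← map_mul, W.tr_prod, pow_add, mul_inv]
  ring

lemma gv_push (f : P ⟶ P') (hd : P.dim = P'.dim) (j : ℕ) (x : W.H P) (y : W.H P') :
    germ (gv G P' j (W.push f x) y) = germ (gv G P j x (W.map f y)) := by
  obtain ⟨Δ, hΔ, h⟩ := push_act G f
  rw [germ_eq]
  refine Virtually.mono (Virtually.and ⟨Δ, hΔ, h⟩ (Virtually.and (virt_dom G P)
    (virt_dom G P'))) ?_
  rintro g ⟨h1, hP, hP'⟩
  have h2 := h1 hP hP' x
  rw [hd] at h2
  have h3 := smul_right_injective (W.H P') (pow_ne_zero P'.dim (G.χ g).ne_zero) h2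
  rw [gv, gv, h3, W.tr_push]

/-- The pairing with the image under a correspondence. -/
lemma gv_corr {l j₀ j : ℕ} (hj : j + P.dim = l + j₀) {z : W.H (P.prod P')}
    (hz : IsTate G (P.prod P') l z) {c : W.H P} (hc : c ∈ W.gr P (2 * j₀)) (y : W.H P') :
    germ (gv G P' j (W.push (snd P P') (z * W.map (fst P P') c)) y) =
      germ (gv G P j₀ c (W.push (fst P P') (z * W.map (snd P P') y))) := by
  obtain ⟨Δ, hΔ, h⟩ := push_act G (snd P P')
  rw [germ_eq]
  refine Virtually.mono (Virtually.and (Virtually.and ⟨Δ, hΔ, h⟩ (Virtually.and hz.2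
    (G.map_act (fst P P')))) (Virtually.and (virt_dom G (P.prod P')) (Virtually.and (virt_dom G P)
      (virt_dom G P')))) ?_
  rintro g ⟨⟨h1, h2, h3⟩, hd, hP, hP'⟩
  have h4 := h1 hd hP' (z * W.map (fst P P') c)
  have e1 : (G.ρ (P.prod P')).act g (z * W.map (fst P P') c) =
      (G.χ g : W.K) ^ l • (z * W.map (fst P P') ((G.ρ P).act g c)) := by
    rw [map_mul, h2 hd, ← h3 hd hP, smul_mul_assoc]
  rw [e1, map_smul, smul_smul, dim_prod] at h4
  set c' := (G.ρ P).act g c with hc'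
  have hc2 : c' ∈ W.gr P (2 * j₀) := (G.isGalois P).gr_mem g hP _ _ hc
  have hχ : ∀ n : ℕ, (G.χ g : W.K) ^ n ≠ 0 := fun n => pow_ne_zero n (G.χ g).ne_zero
  have h5 : (G.ρ P').act g (W.push (snd P P') (z * W.map (fst P P') c)) =
      (((G.χ g : W.K) ^ P.dim)⁻¹ * (G.χ g : W.K) ^ l) •
        W.push (snd P P') (z * W.map (fst P P') c') := by
    apply smul_right_injective (W.H P') (hχ (P.dim + P'.dim))
    change (G.χ g : W.K) ^ (P.dim + P'.dim) • _ = (G.χ g : W.K) ^ (P.dim + P'.dim) • _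
    rw [h4, smul_smul]
    congr 1
    rw [pow_add]
    field_simp [hχ P.dim]
  have h6 : W.tr P' (W.push (snd P P') (z * W.map (fst P P') c') * y) =
      W.tr P (c' * W.push (fst P P') (z * W.map (snd P P') y)) := by
    rw [W.tr_push, W.even_comm hc2, W.tr_push, mul_assoc, W.even_comm (W.map_mem _ hc2),
      mul_assoc]
  rw [gv, gv, h5, smul_mul_assoc, map_smul, smul_eq_mul, h6]
  have h7 : (((G.χ g : W.K) ^ j)⁻¹ * (((G.χ g : W.K) ^ P.dim)⁻¹ * (G.χ g : W.K) ^ l)) =
      ((G.χ g : W.K) ^ j₀)⁻¹ := by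
    rw [← mul_assoc, ← mul_inv, ← pow_add, hj, pow_add]
    field_simp [hχ l, hχ j₀]
  rw [← h7]
  ring

/-- The values of the class `c`. -/
noncomputable def gvals (P : 𝒱.Obj) (j : ℕ) (c : W.H P) : W.H P →ₗ[W.K] Germs Γ W.K where
  toFun y := germ (gv G P j c y)
  map_add' y y' := by rw [gv_add_right, germ_add]
  map_smul' r y := by rw [gv_smul_right, germ_smul]; rfl

end Pool.Agent.Q57.ZI
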