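import Mathlib
import Pool.Agent.Q55.GaloisDefs

/-!
# Functions on a group up to equality on subgroups of finite index
-/

namespace Pool.Agent.Q57.ZI

open Pool.Agent.Q55 (Virtually)

variable {Γ : Type*} [Group Γ] {K : Type*} [Field K]

lemma Virtually.and {p q : Γ → Prop} (hp : Virtually p) (hq : Virtually q) :
    Virtually fun g => p g ∧ q g := by
  obtain ⟨Δ, hΔ, h⟩ := hp
  obtain ⟨Δ', hΔ', h'⟩ := hq
  exact ⟨Δ ⊓ Δ', inferInstance, fun g hg => ⟨h g hg.1, h' g hg.2⟩⟩

lemma Virtually.mono {p q : Γ → Prop} (hp : Virtually p) (h : ∀ g, p g → q g) : Virtually q := by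
  obtain ⟨Δ, hΔ, h'⟩ := hp
  exact ⟨Δ, hΔ, fun g hg => h g (h' g hg)⟩

lemma Virtually.all {ι : Type*} [Finite ι] {p : ι → Γ → Prop} (h : ∀ i, Virtually (p i)) :
    Virtually fun g => ∀ i, p i g := by
  choose Δ hΔ hp using h
  have := Subgroup.finiteIndex_iInf hΔ
  exact ⟨⨅ i, Δ i, this, fun g hg i => hp i g ((Subgroup.mem_iInf.1 hg) i)⟩

variable (Γ K) in
/-- The functions which vanish on a subgroup of finite index. -/
def nulls : Ideal (Γ → K) where
  carrier := {f | Virtually fun g => f g = 0}
  add_mem' {f g} hf hg := Virtually.mono (Virtually.and hf hg) fun x hx => by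
    rw [Pi.add_apply, hx.1, hx.2, add_zero]
  zero_mem' := ⟨⊤, inferInstance, fun g _ => rfl⟩
  smul_mem' f g hg := Virtually.mono hg fun x hx => by
    rw [smul_eq_mul, Pi.mul_apply, hx, mul_zero]

variable (Γ K) in
/-- The germs of functions. -/
abbrev Germs := (Γ → K) ⧸ nulls Γ K

/-- The germ of a function. -/
def germ (f : Γ → K) : Germs Γ K := Ideal.Quotient.mk (nulls Γ K) f

lemma germ_eq {f g : Γ → K} : germ f = germ g ↔ Virtually fun x => f x = g x := by
  rw [germ, germ, Ideal.Quotient.eq]
  constructor
  · intro h
    exact Virtually.mono h fun x hx => sub_eq_zero.1 hx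
  · intro h
    exact Virtually.mono h fun x hx => sub_eq_zero.2 hx

lemma germ_add (f g : Γ → K) : germ (f + g) = germ f + germ g := map_add _ _ _

lemma germ_mul (f g : Γ → K) : germ (f * g) = germ f * germ g := map_mul _ _ _

lemma germ_smul (r : K) (f : Γ → K) : germ (r • f) = r • germ f := rfl

/-- An element of an algebra whose powers lie in a finite-dimensional space is integral. -/
lemma isIntegral_of_pow' {A : Type*} [CommRing A] [Algebra K A] {U : Submodule K A}
    [FiniteDimensional K U] {α : A} (h : ∀ r : ℕ, α ^ (r + 1) ∈ U) : IsIntegral K α := by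
  let V : Submodule K A := Submodule.span K {1} ⊔ U
  have hV : (Algebra.adjoin K {α}).toSubmodule ≤ V := by
    intro x hx
    have hx' : x ∈ Algebra.adjoin K {α} := hx
    rw [Algebra.adjoin_singleton_eq_range_aeval] at hx'
    obtain ⟨p, rfl⟩ := hx'
    change Polynomial.aeval α p ∈ V
    induction p using Polynomial.induction_on' with
    | add p q hp hq =>
      rw [map_add]
      exact Submodule.add_mem _ (hp (Polynomial.aeval_mem_adjoin_singleton K α))
        (hq (Polynomial.aeval_mem_adjoin_singleton K α))
    | monomial n a =>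
      rw [Polynomial.aeval_monomial, ← Algebra.smul_def]
      refine Submodule.smul_mem _ _ ?_
      rcases n with _ | n
      · rw [pow_zero]
        exact Submodule.mem_sup_left (Submodule.mem_span_singleton_self 1)
      · exact Submodule.mem_sup_right (h n)
  have hfg : (Algebra.adjoin K {α}).toSubmodule.FG := by
    have h1 : FiniteDimensional K V := inferInstance
    have h2 : FiniteDimensional K (Algebra.adjoin K {α}).toSubmodule :=
      Submodule.finiteDimensional_of_le hV
    exact (Submodule.fg_top _).1 h2.fg_top
  exact IsIntegral.of_mem_of_fg _ hfg α (Algebra.self_mem_adjoin_singleton K α)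

lemma germ_pow (f : Γ → K) (n : ℕ) : germ (f ^ n) = germ f ^ n := map_pow _ _ _

/-- A function whose germ is integral takes finitely many values on a subgroup of finite index. -/
lemma finite_values {f : Γ → K} (h : IsIntegral K (germ f)) :
    ∃ s : Finset K, Virtually fun g => f g ∈ s := by
  classical
  obtain ⟨p, hp, h0⟩ := h
  refine ⟨p.roots.toFinset, ?_⟩
  have h1 : ∀ q : Polynomial K, Polynomial.eval₂ (algebraMap K (Germs Γ K)) (germ f) q =
      germ fun g => q.eval (f g) := by
    intro q
    induction q using Polynomial.induction_on' with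
    | add p q hp' hq' =>
      rw [Polynomial.eval₂_add, hp', hq', ← germ_add]
      congr 1
      funext g
      rw [Pi.add_apply, Polynomial.eval_add]
    | monomial n a =>
      rw [Polynomial.eval₂_monomial, ← germ_pow, ← Algebra.smul_def, ← germ_smul]
      congr 1
      funext g
      rw [Polynomial.eval_monomial, Pi.smul_apply, Pi.pow_apply, smul_eq_mul]
  rw [h1] at h0
  have h2 : germ (fun g => p.eval (f g)) = germ (0 : Γ → K) := by
    rw [h0]
    exact (map_zero _).symm
  refine Virtually.mono (germ_eq.1 h2) fun g hg => ?_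
  rw [Multiset.mem_toFinset, Polynomial.mem_roots hp.ne_zero]
  exact hg

end Pool.Agent.Q57.ZI
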