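import Pool.Agent.Q57.ZI.Per

/-!
# Classes generated by finitely many classes over de Rham-Betti classes: finiteness
-/

open CategoryTheory AlgebraicGeometry

open scoped TensorProduct

universe u v

namespace Pool.Agent.Q57.ZI

open Module
open Pool.Agent.H914 Pool.Agent.H914.VarClass Pool.Agent.H914.VarClass.Obj
  Pool.Agent.H914.WeilCohomology
open Pool.Agent.Y133.Per
open Pool.Agent.Y133.Half
open Pool.Agent.Q57.DR

variable {k : Type u} [Field k] {𝒱 : VarClass k} {ops : CycleOps 𝒱}
  {W : WeilCohomology.{u, v} ops} [Algebra W.K ℂ] {F : Subfield ℂ} {X Y Z P P' : 𝒱.Obj}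

/-- The de Rham cohomology is finite-dimensional. -/
lemma dR_fg (D : DeRham W F) (P : 𝒱.Obj) : (dRSub D P).FG := by
  have h1 : (Submodule.span ℂ (D.dR P)).FG := IsNoetherian.noetherian _
  obtain ⟨s, hs1, hs2⟩ := (Submodule.fg_span_iff_fg_span_finset_subset _).1 h1
  rw [(D.form P).span] at hs2
  refine ⟨s, le_antisymm (Submodule.span_le.2 hs1) ?_⟩
  intro v hv
  exact mem_span_of_span D hs1 hs2.symm fun w hw =>
    (D.form P).tr _ ((D.form P).mul v hv w (hs1 hw))

/-- The values of the pairing of the class `c` with the elements of the de Rham cohomology. -/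
noncomputable def vals (D : DeRham W F) (P : 𝒱.Obj) (j : ℕ) (c : W.H P) : Submodule F ℂ where
  carrier := {α | ∃ y ∈ D.dR P, pr W P j c y = α}
  add_mem' := by
    rintro _ _ ⟨y, hy, rfl⟩ ⟨y', hy', rfl⟩
    refine ⟨y + y', (D.form P).add _ hy _ hy', ?_⟩
    unfold pr
    rw [mul_add (twist j c), map_add, mul_add]
  zero_mem' := ⟨0, (D.form P).zero, by unfold pr; rw [mul_zero, map_zero, mul_zero]⟩
  smul_mem' := by
    rintro r _ ⟨y, hy, rfl⟩
    refine ⟨(r : ℂ) • y, (D.form P).smul _ r.2 _ hy, ?_⟩
    unfold pr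
    rw [mul_smul_comm, map_smul, smul_eq_mul]
    change _ = (r : ℂ) * _
    ring

lemma vals_fin (D : DeRham W F) (P : 𝒱.Obj) (j : ℕ) (c : W.H P) :
    FiniteDimensional F (vals D P j c) := by
  let φ : Base W.K (W.H P) →ₗ[F] ℂ :=
    { toFun := fun y => pr W P j c y
      map_add' := fun y y' => by unfold pr; rw [mul_add (twist j c), map_add, mul_add]
      map_smul' := fun r y => by
        unfold pr
        change _ * baseTr (W.tr P) (twist j c * ((r : ℂ) • y)) = (r : ℂ) * _
        rw [mul_smul_comm, map_smul, smul_eq_mul]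
        ring }
  have h1 : vals D P j c = (dRSub D P).map φ := by
    ext α
    rfl
  rw [h1]
  exact Module.Finite.of_fg ((dR_fg D P).map φ)

/-- Membership in `F` of the pairing of two elements of the de Rham cohomology. -/
lemma pr_mem {D : DeRham W F} {j : ℕ} {x : W.H P} (hx : twist j x ∈ D.dR P)
    {y : Base W.K (W.H P)} (hy : y ∈ D.dR P) : pr W P j x y ∈ F := by
  obtain ⟨r, hr, h⟩ := (D.form P).tr _ ((D.form P).mul _ hx _ hy)
  unfold pr
  rw [h, ← mul_assoc, inv_mul_cancel₀ (pow_ne_zero _ twoPiI_ne), one_mul]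
  exact hr

/-- Push-forwards of elements of the de Rham cohomology. -/
lemma push_mem (D : DeRham W F) (f : P ⟶ P') {a : Base W.K (W.H P)} (ha : a ∈ D.dR P) :
    (twoPiI ^ P'.dim * (twoPiI ^ P.dim)⁻¹) • bc (W.push f) a ∈ D.dR P' := by
  apply mem_dR
  intro w hw
  obtain ⟨r, hr, h⟩ := (D.form P).tr _ ((D.form P).mul _ ha _ (D.map f w hw))
  refine ⟨r, hr, ?_⟩
  have h1 : ∀ a : Base W.K (W.H P), baseTr (W.tr P') (bc (W.push f) a * w) =
      baseTr (W.tr P) (a * baseMap (W.map f) w) := by
    intro a
    refine base_ind (p := fun a => baseTr (W.tr P') (bc (W.push f) a * w) =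
      baseTr (W.tr P) (a * baseMap (W.map f) w)) ?_ ?_ ?_ a
    · rw [map_zero, zero_mul, zero_mul, map_zero, map_zero]
    · intro s c
      rw [bc_tm, tr_pushC]
    · intro b b' hb hb'
      rw [map_add, add_mul, add_mul, map_add, map_add, hb, hb']
  rw [smul_mul_assoc, map_smul, h1, h, smul_eq_mul]
  have h2 : twoPiI ^ P.dim ≠ 0 := pow_ne_zero _ twoPiI_ne
  field_simp

/-- The pairing with the image under a correspondence. -/
lemma pr_corr (D : DeRham W F) {l j₀ j : ℕ} (hj : j + P.dim = l + j₀) {z : W.H (P.prod P')}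
    (hz : twist l z ∈ D.dR (P.prod P')) (hzg : z ∈ W.gr (P.prod P') (2 * l)) {c : W.H P}
    (hc : c ∈ W.gr P (2 * j₀)) {y : Base W.K (W.H P')} (hy : y ∈ D.dR P') :
    ∃ w ∈ D.dR P, pr W P' j (W.push (snd P P') (z * W.map (fst P P') c)) y = pr W P j₀ c w := by
  have h0 : ∀ d : ℕ, twoPiI ^ d ≠ 0 := fun d => pow_ne_zero _ twoPiI_ne
  set u : Base W.K (W.H (P.prod P')) := twist l z * baseMap (W.map (snd P P')) y with hu
  have hu' : u ∈ D.dR (P.prod P') := (D.form _).mul _ hz _ (D.map _ _ hy)
  have hw := push_mem D (fst P P') hu'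
  refine ⟨_, hw, ?_⟩
  -- the left side
  have h1 : baseTr (W.tr P') (twist j (W.push (snd P P') (z * W.map (fst P P') c)) * y) =
      (twoPiI ^ P.dim)⁻¹ * baseTr (W.tr (P.prod P'))
        (baseMap (W.map (fst P P')) (twist j₀ c) * u) := by
    have e1 : (tm (twoPiI ^ l * twoPiI ^ j₀) (z * W.map (fst P P') c) :
        Base W.K (W.H (P.prod P'))) = twist l z * baseMap (W.map (fst P P')) (twist j₀ c) := by
      rw [twist, twist, baseMap_tm, tm_mul]
    have e2 : (tm (twoPiI ^ j) (z * W.map (fst P P') c) : Base W.K (W.H (P.prod P'))) =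
        (twoPiI ^ P.dim)⁻¹ • tm (twoPiI ^ l * twoPiI ^ j₀) (z * W.map (fst P P') c) := by
      rw [smul_tm, ← pow_add, ← hj, pow_add, mul_comm (twoPiI ^ j), ← mul_assoc,
        inv_mul_cancel₀ (h0 _), one_mul]
    have e3 : (twist l z : Base W.K (W.H (P.prod P'))) * baseMap (W.map (fst P P')) (twist j₀ c) =
        baseMap (W.map (fst P P')) (twist j₀ c) * twist l z := tm_even_comm hzg _ _
    rw [twist, tr_pushC, e2, e1, smul_mul_assoc, map_smul, smul_eq_mul, e3, mul_assoc]
  -- the right side
  have h2 : baseTr (W.tr P) (twist j₀ c *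
      ((twoPiI ^ P.dim * (twoPiI ^ (P.prod P').dim)⁻¹) • bc (W.push (fst P P')) u)) =
      (twoPiI ^ P.dim * (twoPiI ^ (P.prod P').dim)⁻¹) * baseTr (W.tr (P.prod P'))
        (baseMap (W.map (fst P P')) (twist j₀ c) * u) := by
    rw [mul_smul_comm, map_smul, smul_eq_mul]
    congr 1
    have e1 : (twist j₀ c : Base W.K (W.H P)) * bc (W.push (fst P P')) u =
        bc (W.push (fst P P')) u * twist j₀ c := tm_even_comm hc _ _
    have e2 : (baseMap (W.map (fst P P')) (twist j₀ c) : Base W.K (W.H (P.prod P'))) * u =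
        u * baseMap (W.map (fst P P')) (twist j₀ c) := by
      rw [twist, baseMap_tm]
      exact tm_even_comm (W.map_mem _ hc) _ _
    rw [e1, e2]
    generalize (twist j₀ c : Base W.K (W.H P)) = w
    refine base_ind (p := fun u => baseTr (W.tr P) (bc (W.push (fst P P')) u * w) =
      baseTr (W.tr (P.prod P')) (u * baseMap (W.map (fst P P')) w)) ?_ ?_ ?_ u
    · rw [map_zero, zero_mul, zero_mul, map_zero, map_zero]
    · intro s c
      rw [bc_tm, tr_pushC]
    · intro b b' hb hb'
      rw [map_add, add_mul, add_mul, map_add, map_add, hb, hb']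
  unfold pr
  rw [h1, h2, dim_prod, pow_add]
  field_simp

/-- The classes which are finitely generated over de Rham-Betti classes have finite-dimensional
spaces of values. -/
theorem values_fin {Q R : ClassPred W} {D : DeRham W F}
    (hQ : ∀ (Z : 𝒱.Obj) (j : ℕ) (z : W.H Z), Q.P Z j z → twist j z ∈ D.dR Z) {N : ℕ∞}
    (hG : GeneratedOver W Q.P R.P X N) : ∃ U : Submodule F ℂ, FiniteDimensional F U ∧
      ∀ n j x y, R.P (pw X n) j x → y ∈ D.dR (pw X n) → pr W (pw X n) j x y ∈ U := by
  obtain ⟨r, c, -, hc, hG⟩ := hG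
  choose jc hjc using hc
  let U : Submodule F ℂ := Submodule.span F {1} ⊔ ⨆ i, vals D (pw X (c i).1) (jc i) (c i).2
  have hF : ∀ a ∈ F, a ∈ U := by
    intro a ha
    refine Submodule.mem_sup_left (Submodule.mem_span_singleton.2 ⟨⟨a, ha⟩, ?_⟩)
    change a * 1 = a
    rw [mul_one]
  refine ⟨U, ?_, ?_⟩
  · have h1 := fun i => vals_fin D (pw X (c i).1) (jc i) (c i).2
    infer_instance
  · intro n j x y hx hy
    have hx' := hG n j x hx
    have hxg := R.gr hx
    have key : ∀ x ∈ genOver W Q.P X c n,
        pr W (pw X n) j (H914.proj (W.isInternal (pw X n)) (2 * j) x) y ∈ U := by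
      intro x hx
      induction hx using Submodule.span_induction with
      | mem x hx =>
        rcases hx with ⟨l, hl⟩ | hx
        · by_cases hlj : l = j
          · subst hlj
            rw [proj_same _ (Q.gr hl)]
            exact hF _ (pr_mem (hQ _ _ _ hl) hy)
          · rw [proj_ne _ (Q.gr hl) (by omega), pr_zero_left]
            exact Submodule.zero_mem _
        · obtain ⟨i, hx⟩ := Set.mem_iUnion.1 hx
          obtain ⟨l, z, hz, rfl⟩ := hx
          have e1 : (H914.corrOp (W.map (fst (pw X (c i).1) (pw X n)))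
              (W.push (snd (pw X (c i).1) (pw X n))) z) (c i).2 =
              W.push (snd (pw X (c i).1) (pw X n))
                (z * W.map (fst (pw X (c i).1) (pw X n)) (c i).2) := rfl
          have e2 := (W.mul_mem (Q.gr hz) (W.map_mem (fst (pw X (c i).1) (pw X n))
            (R.gr (hjc i))))
          have e3 := W.push_mem (snd (pw X (c i).1) (pw X n)) e2
          change pr W (pw X n) j (H914.proj (W.isInternal (pw X n)) (2 * j)
            (W.push (snd (pw X (c i).1) (pw X n))
                (z * W.map (fst (pw X (c i).1) (pw X n)) (c i).2))) y ∈ U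
          by_cases hd : j + (pw X (c i).1).dim = l + jc i
          · have e4 : ((2 * l + 2 * jc i : ℕ) : ℤ) + 2 * (((pw X n).dim : ℤ) -
                ((pw X (c i).1).prod (pw X n)).dim) = ((2 * j : ℕ) : ℤ) := by
              rw [dim_prod]; push_cast; omega
            rw [e4, grZ_natCast] at e3
            rw [proj_same _ e3]
            obtain ⟨w, hw, h⟩ := pr_corr D hd (hQ _ _ _ hz) (Q.gr hz) (R.gr (hjc i)) hy
            rw [h]
            refine Submodule.mem_sup_right (Submodule.mem_iSup_of_mem i ⟨w, hw, rfl⟩)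
          · by_cases hd2 : (pw X (c i).1).dim ≤ l + jc i
            · have e4 : ((2 * l + 2 * jc i : ℕ) : ℤ) + 2 * (((pw X n).dim : ℤ) -
                  ((pw X (c i).1).prod (pw X n)).dim) =
                  ((2 * (l + jc i - (pw X (c i).1).dim) : ℕ) : ℤ) := by
                rw [dim_prod]; push_cast; omega
              rw [e4, grZ_natCast] at e3
              rw [proj_ne _ e3 (by omega), pr_zero_left]
              exact Submodule.zero_mem _
            · rw [grZ_of_neg (by rw [dim_prod]; push_cast; omega), Submodule.mem_bot] at e3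
              rw [e3, map_zero, pr_zero_left]
              exact Submodule.zero_mem _
      | zero => rw [map_zero, pr_zero_left]; exact Submodule.zero_mem _
      | add a b _ _ ha hb => rw [map_add, pr_add_left]; exact Submodule.add_mem _ ha hb
      | smul s a _ ha =>
        rw [map_smul, pr_smul_left]
        exact Submodule.smul_mem U (⟨_, (D.form X).scal s⟩ : F) ha
    have h2 := key x hx'
    rwa [proj_same _ hxg] at h2

/-- **Classes which are finitely generated over de Rham-Betti classes are de Rham-Betti classes**, if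
the field of the coefficients of the de Rham cohomology is algebraically closed. -/
theorem drb_of_generated [IsAlgClosed F] {Q R : ClassPred W} {D : DeRham W F}
    (hQ : ∀ (Z : 𝒱.Obj) (j : ℕ) (z : W.H Z), Q.P Z j z → twist j z ∈ D.dR Z) {N : ℕ∞}
    (hG : GeneratedOver W Q.P R.P X N) {n j : ℕ} {x : W.H (pw X n)} (hx : R.P (pw X n) j x) :
    IsDRB D (pw X n) j x := by
  obtain ⟨U, hU, hV⟩ := values_fin hQ hG
  refine ⟨R.gr hx, mem_dR D fun w hw => ?_⟩
  have h1 : IsIntegral F (pr W (pw X n) j x w) := by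
    refine isIntegral_of_pow (U := U) fun r => ?_
    obtain ⟨n', j', x', y', hx', hy', h⟩ := exists_pow (R := R) (D := D) hx hw r
    rw [← h]
    exact hV n' j' x' y' hx' hy'
  refine ⟨_, mem_of_isIntegral h1, ?_⟩
  unfold pr
  rw [← mul_assoc, mul_inv_cancel₀ (pow_ne_zero _ twoPiI_ne), one_mul]

end Pool.Agent.Q57.ZI
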